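import Pool.Agent.P.MP_dbf8df_co.Form

/-!
The basis dual to the monomial basis, and the triangularity of the Lax operator on it.
-/

namespace Pool.Agent.P.MP_dbf8df_co

open MvPolynomial Finset Submodule

set_option linter.unusedSectionVars false

variable {K : Type} [Field K] [CharZero K] {α : K}

/-- The coefficients of `exp (∑ p_k t ^ k / (k α))`. -/
noncomputable def gg (α : K) : ℕ → Om Unit K
  | 0 => 1
  | m + 1 => C (α * (m + 1 : ℕ))⁻¹ * ∑ k ∈ range (m + 1), X ((), k + 1) * gg α (m - k)
decreasing_by omega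

/-- The coefficients of the same series divided by `1 - t w`. -/
noncomputable def GG (α : K) : ℕ → Om Unit K
  | 0 => 1
  | a + 1 => X ((), 0) * GG α a + gg α (a + 1)

theorem gg_zero : gg α 0 = 1 := by rw [gg]

theorem al_ne (h : α ≠ 0) (m : ℕ) : α * (m + 1 : ℕ) ≠ 0 :=
  mul_ne_zero h (Nat.cast_ne_zero.2 m.succ_ne_zero)

theorem newton (h : α ≠ 0) (m : ℕ) :
    C (α * (m + 1 : ℕ)) * gg α (m + 1) = ∑ k ∈ range (m + 1), X ((), k + 1) * gg α (m - k) := by
  rw [gg, ← mul_assoc, ← C_mul, mul_inv_cancel₀ (al_ne h m), C_1, one_mul]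

theorem gg_fr (m : ℕ) : gg α m ∈ Fr () := by
  induction m using Nat.strong_induction_on with
  | _ m ih =>
    cases m with
    | zero => rw [gg_zero]; exact one_mem _
    | succ m =>
      rw [gg]
      exact mul_mem (C_mem_Fr _ _) (sum_mem fun k _ => mul_mem (p_mem_Fr _ _ _) (ih _ (by omega)))

theorem wl_GG (a : ℕ) (h : ℕ → Om Unit K) :
    wl () h (GG α a) = ∑ k ∈ range (a + 1), h k * gg α (a - k) := by
  induction a generalizing h with
  | zero => simp [GG, gg_zero, wl_fr (Fr ()).one_mem]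
  | succ a ih =>
    rw [GG, map_add, wl_w_mul, ih, wl_fr (gg_fr _), sum_range_succ' _ (a + 1)]
    simp

theorem Th_GG (h : α ≠ 0) (a : ℕ) : Th () (GG α a) = C (α * (a + 1 : ℕ)) * gg α (a + 1) := by
  rw [Th, wl_GG, newton h]

theorem wc_GG (a : ℕ) : wc () 0 (GG α a) = gg α a := by
  cases a with
  | zero => rw [GG, gg_zero, wc_fr (one_mem _)]
  | succ a => rw [GG, map_add, wc_w, wc_fr (gg_fr _), zero_add]

theorem sh_GG (a : ℕ) : sh () (GG α (a + 1)) = GG α a := by
  rw [GG, map_add, sh_w, sh_fr (gg_fr _), add_zero]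

theorem C_cancel {r : K} (hr : r ≠ 0) {x y : Om Unit K} (h : C r * x = C r * y) : x = y :=
  mul_left_cancel₀ (by simpa using hr) h

theorem pd_gg (h : α ≠ 0) (j m : ℕ) : C (α * (j + 1 : ℕ)) * pderiv ((), j + 1) (gg α m)
    = if j + 1 ≤ m then gg α (m - (j + 1)) else 0 := by
  induction m using Nat.strong_induction_on with
  | _ m ih =>
    cases m with
    | zero => simp [gg_zero]
    | succ m =>
      refine C_cancel (al_ne h m) ?_
      rw [mul_left_comm, ← pderiv_C_mul, newton h, map_sum, mul_sum]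
      have e : ∀ k ∈ range (m + 1),
          C (α * (j + 1 : ℕ)) * pderiv ((), j + 1) (X ((), k + 1) * gg α (m - k))
          = (if k = j then C (α * (j + 1 : ℕ)) * gg α (m - j) else 0)
            + if k < m - j then X ((), k + 1) * gg α (m - j - 1 - k) else 0 := fun k hk => by
        rw [pderiv_mul, mul_add, mul_left_comm _ (X _), ih _ (by omega), pderiv_X, Pi.single_apply]
        congr 1
        · by_cases e : k = j <;> simp [e]
        · by_cases e : k < m - j
          · rw [if_pos e, if_pos (by omega), show m - k - (j + 1) = m - j - 1 - k by omega]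
          · rw [if_neg e, if_neg (by omega), mul_zero]
      rw [sum_congr rfl e, sum_add_distrib, sum_ite_eq', ← sum_filter,
        show (range (m + 1)).filter (· < m - j) = range (m - j) by
          ext k; simp only [mem_filter, mem_range]; omega]
      by_cases e1 : j ≤ m
      · obtain ⟨d, rfl⟩ := Nat.exists_eq_add_of_le e1
        rw [if_pos (mem_range.2 (by omega)), if_pos (by omega), Nat.add_sub_cancel_left,
          show j + d + 1 - (j + 1) = d by omega]
        cases d with
        | zero => simp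
        | succ d =>
          rw [Nat.add_sub_cancel, ← newton h, ← add_mul, ← C_add]
          congr 2
          push_cast
          ring
      · rw [if_neg (by simp; omega), if_neg (by omega), show m - j = 0 by omega]
        simp

theorem wc_ext {φ χ : Om Unit K} (h : ∀ k, wc () k φ = wc () k χ) : φ = χ :=
  MvPolynomial.ext _ _ fun m => by
    rw [← Finsupp.single_add_erase ((), 0) m, ← coeff_wc _ _ (by simp), ← coeff_wc _ _ (by simp), h]

theorem de_gg (h : α ≠ 0) (a : ℕ) : de α () (gg α (a + 1)) = X ((), 0) * GG α a := by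
  refine wc_ext fun k => ?_
  rw [wc_de α k (gg_fr _)]
  cases k with
  | zero => simp [wc_w]
  | succ k =>
    rw [pd_gg h, wc, wl_w_mul, wl_GG]
    simp only [Nat.add_right_cancel_iff, ite_mul, one_mul, zero_mul, sum_ite_eq', mem_range,
      Nat.add_sub_add_right, Nat.succ_le_iff]

theorem Lx_GG (h : α ≠ 0) (a : ℕ) : Lx α () (GG α a) = C (α * a) * GG α a := by
  induction a with
  | zero => rw [GG, Lx_fr α (one_mem _)]; simp
  | succ a ih =>
    rw [GG, map_add, Lx_w, ih, Th_GG h, Lx_fr α (gg_fr _), de_gg h]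
    simp only [Nat.cast_succ, map_mul, map_add, map_sub, map_one]
    ring

theorem w_GG_GG (n c a : ℕ) (h : a + c + 1 = n) :
    X ((), 0) * GG α a * GG α c = ∑ t ∈ range (n + 1), GG α t * gg α (n - t)
      - ∑ t ∈ range (a + 1), GG α t * gg α (n - t) - ∑ t ∈ range (c + 1), GG α t * gg α (n - t) := by
  induction c generalizing a with
  | zero =>
    subst h
    rw [sum_range_succ _ (a + 0 + 1)]
    simp [GG, gg_zero]
  | succ c ih =>
    have := ih (a + 1) (by omega)
    rw [sum_range_succ _ (a + 1), show n - (a + 1) = c + 1 by omega] at this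
    rw [sum_range_succ _ (c + 1), show n - (c + 1) = a + 1 by omega]
    simp only [GG] at this ⊢
    linear_combination this

/-- Products of the functions `gg`. -/
noncomputable def gm (α : K) (ν : Multiset ℕ) : Om Unit K := (ν.map (gg α)).prod

theorem gm_cons (a : ℕ) (ν : Multiset ℕ) : gm α (a ::ₘ ν) = gg α a * gm α ν := by
  simp [gm]

theorem gm_add (ν ρ : Multiset ℕ) : gm α (ν + ρ) = gm α ν * gm α ρ := by simp [gm]

theorem gm_fr (ν : Multiset ℕ) : gm α ν ∈ Fr () := by
  induction ν using Multiset.induction_on with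
  | empty => exact one_mem _
  | cons a ν ih => rw [gm_cons]; exact mul_mem (gg_fr a) ih

theorem gm_filter (ν : Multiset ℕ) : gm α (ν.filter (· ≠ 0)) = gm α ν := by
  induction ν using Multiset.induction_on with
  | empty => rfl
  | cons a ν ih =>
    by_cases h : a = 0
    · rw [Multiset.filter_cons_of_neg (p := (· ≠ 0)) _ (by simpa using h), gm_cons, h, gg_zero, one_mul, ih]
    · rw [Multiset.filter_cons_of_pos (p := (· ≠ 0)) _ h, gm_cons, gm_cons, ih]

/-- The convex statistics that describe the dominance order. -/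
def Tm (ν : Multiset ℕ) (t : ℕ) : ℕ := (ν.map (· - t)).sum

theorem Tm_cons (a : ℕ) (ν : Multiset ℕ) (t : ℕ) : Tm (a ::ₘ ν) t = a - t + Tm ν t := by simp [Tm]

theorem Tm_filter (ν : Multiset ℕ) : Tm (ν.filter (· ≠ 0)) = Tm ν := by
  funext t
  induction ν using Multiset.induction_on with
  | empty => rfl
  | cons a ν ih =>
    by_cases h : a = 0
    · rw [Multiset.filter_cons_of_neg (p := (· ≠ 0)) _ (by simpa using h), Tm_cons, ih]
      omega
    · rw [Multiset.filter_cons_of_pos (p := (· ≠ 0)) _ h, Tm_cons, Tm_cons, ih]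

theorem Tm_count (ν : Multiset ℕ) (k : ℕ) :
    Tm ν k + Tm ν (k + 2) = 2 * Tm ν (k + 1) + ν.count (k + 1) := by
  induction ν using Multiset.induction_on with
  | empty => rfl
  | cons a ν ih =>
    simp only [Tm_cons, Multiset.count_cons]
    split_ifs <;> omega

theorem Tm_inj {ν ρ : Multiset ℕ} (h1 : ∀ k ∈ ν, 0 < k) (h2 : ∀ k ∈ ρ, 0 < k) (h : Tm ν = Tm ρ) :
    ν = ρ := by
  ext k
  cases k with
  | zero =>
    rw [Multiset.count_eq_zero.2 fun c => (h1 0 c).false,
      Multiset.count_eq_zero.2 fun c => (h2 0 c).false]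
  | succ k =>
    have a1 := Tm_count ν k
    have a2 := Tm_count ρ k
    rw [h] at a1
    omega

theorem Tp_inj {n : ℕ} {l m : n.Partition} (h : Tm l.parts = Tm m.parts) : l = m :=
  Nat.Partition.ext (Tm_inj (fun _ => l.parts_pos) (fun _ => m.parts_pos) h)

/-- Pairs `(a, ν)` of a natural number and a partition with total size `n`. -/
@[ext] structure In (n : ℕ) : Type where
  a : ℕ
  nu : Multiset ℕ
  pos : ∀ k ∈ nu, 0 < k
  sum : a + nu.sum = n

variable {n : ℕ}

/-- The partition `ν ∪ a`. -/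
def zp (i : In n) : n.Partition := Nat.Partition.ofSums n (i.a ::ₘ i.nu) (by simpa using i.sum)

/-- The partition `ν ∪ (a + 1)`. -/
def xp (i : In n) : (n + 1).Partition where
  parts := (i.a + 1) ::ₘ i.nu
  parts_pos := fun h => by
    rcases Multiset.mem_cons.1 h with rfl | h
    exacts [Nat.succ_pos _, i.pos _ h]
  parts_sum := by have := i.sum; rw [Multiset.sum_cons]; omega

theorem Tm_zp (i : In n) (t : ℕ) : Tm (zp i).parts t = i.a - t + Tm i.nu t := by
  rw [← Tm_cons, ← Tm_filter (i.a ::ₘ i.nu)]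
  rfl

theorem Tm_xp (i : In n) (t : ℕ) : Tm (xp i).parts t = i.a + 1 - t + Tm i.nu t := Tm_cons _ _ _

theorem In.ext' {i j : In n} (h1 : i.a = j.a) (h2 : xp i = xp j) : i = j := by
  have : (i.a + 1) ::ₘ i.nu = (j.a + 1) ::ₘ j.nu := congrArg Nat.Partition.parts h2
  rw [h1, Multiset.cons_inj_right] at this
  exact In.ext h1 this

theorem In.ext'' {i j : In n} (h1 : zp i = zp j) (h2 : xp i = xp j) : i = j := by
  refine In.ext' ?_ h2
  have a1 := Tm_zp i (max i.a j.a)
  have a2 := Tm_zp j (max i.a j.a)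
  have a3 := Tm_xp i (max i.a j.a)
  have a4 := Tm_xp j (max i.a j.a)
  rw [h1] at a1
  rw [h2] at a3
  omega

instance : Finite (In n) :=
  Finite.of_injective
    (fun i : In n => ((⟨i.a, by have := i.sum; omega⟩ : Fin (n + 1)), xp i)) fun _ _ h =>
      In.ext' (congrArg (fun q => (q.1 : ℕ)) h) (congrArg Prod.snd h)

noncomputable instance : Fintype (In n) := Fintype.ofFinite _

/-- The basis of the homogeneous part of degree `n`. -/
noncomputable def NN (α : K) (i : In n) : Om Unit K := GG α i.a * gm α i.nu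

theorem exists_idx (t : ℕ) (ρ : Multiset ℕ) (h : t + ρ.sum = n) :
    ∃ j : In n, j.a = t ∧ Tm j.nu = Tm ρ ∧ ∀ α : K, NN α j = GG α t * gm α ρ := by
  refine ⟨⟨t, ρ.filter (· ≠ 0), fun k hk => Nat.pos_of_ne_zero (Multiset.mem_filter.1 hk).2, ?_⟩,
    rfl, Tm_filter ρ, fun α => by rw [← gm_filter ρ]; rfl⟩
  rw [← h]
  exact congrArg _ (Nat.Partition.ofMultiset ρ).parts_sum

/-- The strict order on the index set induced by an order on the statistics. -/
def rr {O : Type} [PartialOrder O] (o : (ℕ → ℕ) → O) (i j : In n) : Prop :=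
  o (Tm (zp i).parts) ≤ o (Tm (zp j).parts) ∧ o (Tm (xp i).parts) ≤ o (Tm (xp j).parts) ∧ i ≠ j

theorem rr_trans {O : Type} [PartialOrder O] {o : (ℕ → ℕ) → O} (ho : Function.Injective o) :
    IsTrans (In n) (rr o) :=
  ⟨fun _ _ _ h h' => ⟨h.1.trans h'.1, h.2.1.trans h'.2.1, by
    rintro rfl
    exact h.2.2 (In.ext'' (Tp_inj (ho (h.1.antisymm h'.1))) (Tp_inj (ho (h.2.1.antisymm h'.2.1))))⟩⟩

instance {O : Type} [PartialOrder O] {o : (ℕ → ℕ) → O} : Std.Irrefl (rr (n := n) o) :=
  ⟨fun _ h => h.2.2 rfl⟩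

theorem Lx_NN (h : α ≠ 0) (i : In n) :
    ∃ s : ℕ, Lx α () (NN α i) - (α * i.a - s) • NN α i ∈ span K (NN α '' {j | rr id i j}) := by
  have k : ∀ ν ρ : Multiset ℕ, ν + ρ = i.nu → ∃ s : ℕ,
      de α () (gm α ν) * gm α ρ * GG α i.a + (s : K) • NN α i
        ∈ span K (NN α '' {j | rr id i j}) := by
    intro ν
    induction ν using Multiset.induction_on with
    | empty => exact fun ρ _ => ⟨0, by simp [gm]⟩
    | cons c ν ih =>
      intro ρ e
      obtain ⟨s, hs⟩ := ih (c ::ₘ ρ) (by rw [← e]; simp)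
      obtain ⟨c, rfl⟩ := Nat.exists_eq_succ_of_ne_zero (i.pos c (by rw [← e]; simp)).ne'
      have e' : i.nu = (c + 1) ::ₘ (ν + ρ) := by rw [← e]; simp
      have hn := i.sum
      rw [e', Multiset.sum_cons] at hn
      set a := i.a with ha
      have m : ∀ t, t ≤ a + c + 1 → t ≠ a → (max a c < t ∨ t ≤ min a c) →
          GG α t * gg α (a + c + 1 - t) * gm α (ν + ρ) ∈ span K (NN α '' {j | rr id i j}) := by
        intro t h1 h2 h3
        obtain ⟨j, j1, j2, j3⟩ := exists_idx (K := K) (n := n) t ((a + c + 1 - t) ::ₘ (ν + ρ))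
          (by rw [Multiset.sum_cons]; omega)
        refine subset_span ⟨j, ⟨fun u => ?_, fun u => ?_, fun e => h2 (by rw [← j1, ← e])⟩,
          by rw [j3, gm_cons, mul_assoc]⟩
        · simp only [id, Tm_zp, j1, j2, e', Tm_cons]
          omega
        · simp only [id, Tm_xp, j1, j2, e', Tm_cons]
          omega
      have u : X ((), 0) * GG α a * GG α c
          = ∑ t ∈ Ico (max a c + 1) (a + c + 1 + 1), GG α t * gg α (a + c + 1 - t)
            - ∑ t ∈ range (min a c + 1), GG α t * gg α (a + c + 1 - t) := by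
        rw [w_GG_GG _ c a rfl, sum_Ico_eq_sub _ (by omega)]
        rcases le_total a c with h | h
        · rw [max_eq_right h, min_eq_left h]; ring
        · rw [max_eq_left h, min_eq_right h]
      have m1 : (∑ t ∈ Ico (max a c + 1) (a + c + 1 + 1), GG α t * gg α (a + c + 1 - t))
          * gm α (ν + ρ) ∈ span K (NN α '' {j | rr id i j}) := by
        rw [sum_mul]
        exact sum_mem fun t ht => by
          have := mem_Ico.1 ht
          exact m t (by omega) (by omega) (by omega)
      have m2 : ∃ s' : ℕ, (∑ t ∈ range (min a c + 1), GG α t * gg α (a + c + 1 - t))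
          * gm α (ν + ρ) - (s' : K) • NN α i ∈ span K (NN α '' {j | rr id i j}) := by
        by_cases hac : a ≤ c
        · refine ⟨1, ?_⟩
          rw [min_eq_left hac, sum_range_succ, add_mul, NN, e', gm_cons, ← ha, Nat.cast_one,
            one_smul, show a + c + 1 - a = c + 1 by omega, mul_assoc, add_sub_cancel_right, sum_mul]
          exact sum_mem fun t ht => by
            have := mem_range.1 ht
            exact m t (by omega) (by omega) (by omega)
        · refine ⟨0, ?_⟩
          rw [Nat.cast_zero, zero_smul, sub_zero, sum_mul]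
          exact sum_mem fun t ht => by
            have := mem_range.1 ht
            exact m t (by omega) (by omega) (by omega)
      obtain ⟨s', m2⟩ := m2
      refine ⟨s + s', ?_⟩
      convert add_mem hs (sub_mem m1 m2) using 1
      rw [gm_cons, gm_cons, de_mul, de_gg h, Nat.cast_add, add_smul, ← sub_add, ← sub_mul, ← u,
        gm_add]
      ring
  obtain ⟨s, hs⟩ := k i.nu 0 (add_zero _)
  refine ⟨s, ?_⟩
  convert hs using 1
  rw [NN, mul_comm (GG _ _), Lx_fr_mul α (gm_fr _), Lx_GG h, sub_smul, smul_eq_C_mul]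
  simp only [gm, Multiset.map_zero, Multiset.prod_zero]
  ring

theorem gm_zp (i : In n) : gm α (zp i).parts = gg α i.a * gm α i.nu := by
  rw [← gm_cons, ← gm_filter (i.a ::ₘ i.nu)]
  rfl

theorem wc_NN (i : In n) : wc () 0 (NN α i) = gm α (zp i).parts := by
  rw [NN, mul_comm, wc, wl_fr_mul (gm_fr _), ← wc, wc_GG, gm_zp, mul_comm]

theorem Th_NN (h : α ≠ 0) (i : In n) :
    Th () (NN α i) = (α * (i.a + 1 : ℕ)) • gm α (xp i).parts := by
  rw [NN, mul_comm, Th, wl_fr_mul (gm_fr _), ← Th, Th_GG h, smul_eq_C_mul, xp, gm_cons]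
  ring

theorem gm_eq_NN (l : n.Partition) : ∃ j : In n, zp j = l ∧ ∀ α : K, NN α j = gm α l.parts := by
  obtain ⟨j, j1, j2, j3⟩ := exists_idx (K := K) (n := n) 0 l.parts (by simpa using l.parts_sum)
  exact ⟨j, Tp_inj (funext fun t => by simp [Tm_zp, j1, j2]), fun α => by rw [j3, GG, one_mul]⟩

theorem sh_de_gm (h : α ≠ 0) (l : (n + 1).Partition) :
    sh () (de α () (gm α l.parts)) ∈ span K (NN α '' {j : In n | xp j = l}) := by
  have k : ∀ ν ρ : Multiset ℕ, ν + ρ = l.parts →
      sh () (de α () (gm α ν)) * gm α ρ ∈ span K (NN α '' {j : In n | xp j = l}) := by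
    intro ν
    induction ν using Multiset.induction_on with
    | empty => exact fun ρ _ => by simp [gm]
    | cons c ν ih =>
      intro ρ e
      have hs := ih (c ::ₘ ρ) (by rw [← e]; simp)
      obtain ⟨c, rfl⟩ := Nat.exists_eq_succ_of_ne_zero
        (l.parts_pos (i := c) (by rw [← e]; simp)).ne'
      have e' : l.parts = (c + 1) ::ₘ (ν + ρ) := by rw [← e]; simp
      have hn := l.parts_sum
      rw [e', Multiset.sum_cons] at hn
      obtain ⟨j, j1, j2, j3⟩ := exists_idx (K := K) (n := n) c (ν + ρ) (by omega)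
      convert add_mem hs (subset_span ⟨j, Tp_inj (funext fun t => by
        rw [Tm_xp, j1, j2, e', Tm_cons]), rfl⟩) using 1
      rw [gm_cons, gm_cons, de_mul, de_gg h, map_add, mul_assoc, sh_w, sh, wl_fr_mul (gg_fr _), j3,
        gm_add]
      ring
  simpa [gm] using k l.parts 0 (add_zero _)

theorem w_NN (i : In n) :
    X ((), 0) * NN α i ∈ span K (NN α '' {j : In (n + 1) | zp j = xp i}) := by
  obtain ⟨j, j1, j2, j3⟩ := exists_idx (K := K) (n := n + 1) (i.a + 1) i.nu
    (by have := i.sum; omega)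
  obtain ⟨j', k1, k2⟩ := gm_eq_NN (K := K) (xp i)
  have m : ∀ j : In (n + 1), zp j = xp i →
      NN α j ∈ span K (NN α '' {j : In (n + 1) | zp j = xp i}) := fun j h => subset_span ⟨j, h, rfl⟩
  convert sub_mem (m j (Tp_inj (funext fun t => by rw [Tm_zp, Tm_xp, j1, j2]))) (m j' k1) using 1
  rw [j3, k2, xp, gm_cons, GG, NN]
  ring

theorem sh_NN (i : In (n + 1)) : sh () (NN α i) ∈ span K (NN α '' {j : In n | xp j = zp i}) := by
  rw [NN, mul_comm, sh, wl_fr_mul (gm_fr _), ← sh]
  have hn := i.sum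
  have ht := Tm_zp i
  generalize i.a = a at hn ht
  cases a with
  | zero => rw [GG, sh_fr (one_mem _), mul_zero]; exact zero_mem _
  | succ a =>
    obtain ⟨j, j1, j2, j3⟩ := exists_idx (K := K) (n := n) a i.nu (by omega)
    exact subset_span ⟨j, Tp_inj (funext fun t => by rw [Tm_xp, ht, j1, j2]),
      by rw [j3, sh_GG, mul_comm]⟩

/-- Symmetric functions of degree `n`. -/
noncomputable def Lam (α : K) (n : ℕ) : Submodule K (Om Unit K) :=
  span K (Set.range fun l : n.Partition => gm α l.parts)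

theorem gg_Lam (m : ℕ) {x : Om Unit K} (hx : x ∈ Lam α n) : gg α m * x ∈ Lam α (n + m) := by
  refine mem_comap.1 ((span_le (p := comap (LinearMap.mulLeft K (gg α m)) _)).2 ?_ hx)
  rintro _ ⟨l, rfl⟩
  refine mem_comap.2 (subset_span ⟨Nat.Partition.ofSums _ (m ::ₘ l.parts)
    (by rw [Multiset.sum_cons, l.parts_sum, add_comm]), ?_⟩)
  exact (gm_filter _).trans (gm_cons _ _)

theorem p_Lam (h : α ≠ 0) (k : ℕ) :
    ∀ (n : ℕ) (x : Om Unit K), x ∈ Lam α n → X ((), k + 1) * x ∈ Lam α (n + (k + 1)) := by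
  induction k using Nat.strong_induction_on with
  | _ k ih =>
    intro n x hx
    have e := newton h k
    rw [sum_range_succ, Nat.sub_self, gg_zero, mul_one, ← sub_eq_iff_eq_add'] at e
    rw [← e, sub_mul, sum_mul, mul_assoc, C_mul']
    refine sub_mem (smul_mem _ _ (gg_Lam _ hx)) (sum_mem fun j hj => ?_)
    have := mem_range.1 hj
    rw [mul_assoc, show n + (k + 1) = n + (k - j) + (j + 1) by omega]
    exact ih j this _ _ (gg_Lam _ hx)

/-- Products of power sums. -/
noncomputable def pm (K : Type) [Field K] (ν : Multiset ℕ) : Om Unit K :=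
  (ν.map fun k => X ((), k)).prod

theorem pm_Lam (h : α ≠ 0) (ν : Multiset ℕ) (hν : ∀ k ∈ ν, 0 < k) : pm K ν ∈ Lam α ν.sum := by
  induction ν using Multiset.induction_on with
  | empty => exact subset_span ⟨default, by simp [gm, pm]⟩
  | cons c ν ih =>
    obtain ⟨c, rfl⟩ := Nat.exists_eq_succ_of_ne_zero (hν c (by simp)).ne'
    rw [pm, Multiset.map_cons, Multiset.prod_cons, Multiset.sum_cons, add_comm]
    exact p_Lam h c _ _ (ih fun k hk => hν k (by simp [hk]))

theorem Lam_fr {x : Om Unit K} (hx : x ∈ Lam α n) : x ∈ Fr () := by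
  refine (span_le (p := (Fr ()).toSubmodule)).2 ?_ hx
  rintro _ ⟨l, rfl⟩
  exact gm_fr _

end Pool.Agent.P.MP_dbf8df_co
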