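import Pool.Agent.P.MP_dbf8df_co.Psi

/-!
Existence of Jack symmetric functions, with triangularity for the dominance order.
-/

namespace Pool.Agent.P.MP_dbf8df_co

open MvPolynomial Finset Submodule

set_option linter.unusedSectionVars false

variable {K : Type} [Field K] [CharZero K] {α : K} {n : ℕ}

theorem pm_eq (ν : Multiset ℕ) :
    pm K ν = monomial (Multiset.toFinsupp (ν.map fun k => ((), k))) 1 := by
  induction ν using Multiset.induction_on with
  | empty => simp [pm]
  | cons c ν ih =>
    rw [pm, Multiset.map_cons, Multiset.prod_cons, ← pm, ih, X, monomial_mul, one_mul,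
      Multiset.map_cons, ← Multiset.singleton_add, map_add, Multiset.toFinsupp_singleton]

theorem ex_inj : Function.Injective
    fun l : n.Partition => Multiset.toFinsupp (l.parts.map fun k => (((), k) : Unit × ℕ)) :=
  fun _ _ h => Nat.Partition.ext (Multiset.map_injective (fun _ _ e => congrArg Prod.snd e)
    (Multiset.toFinsupp.injective h))

theorem pm_li : LinearIndependent K fun l : n.Partition => pm K l.parts := by
  simp only [pm_eq]
  exact (basisMonomials (Unit × ℕ) K).linearIndependent.comp _ ex_inj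

theorem pm_le (h : α ≠ 0) : span K (Set.range fun l : n.Partition => pm K l.parts) ≤ Lam α n := by
  rw [span_le]
  rintro _ ⟨l, rfl⟩
  have := pm_Lam h l.parts fun _ => l.parts_pos
  rwa [l.parts_sum] at this

theorem Lam_pm (h : α ≠ 0) : span K (Set.range fun l : n.Partition => pm K l.parts) = Lam α n := by
  have : FiniteDimensional K (Lam α n) := FiniteDimensional.span_of_finite K (Set.finite_range _)
  refine Submodule.eq_of_le_of_finrank_le (pm_le h) ?_
  rw [finrank_span_eq_card pm_li]
  exact finrank_range_le_card _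

theorem OB.ne (h : α ≠ 0) {G : ∀ n : ℕ, n.Partition → Om Unit K} (hG : OB α G) (l : n.Partition) :
    G n l ≠ 0 := by
  refine LinearIndependent.ne_zero (R := K) l (linearIndependent_iff_card_le_finrank_span.2 ?_)
  have : FiniteDimensional K (Submodule.span K (Set.range (G n))) :=
    FiniteDimensional.span_of_finite K (Set.finite_range _)
  rw [← finrank_span_eq_card (pm_li (K := K))]
  exact Submodule.finrank_mono ((pm_le h).trans (hG.span n))

theorem de_ne_zero (hα : Par α) {x : Om Unit K} (hx : x ∈ Lam α (n + 1))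
    (h : sh () (de α () x) = 0) : x = 0 := by
  have f := Lam_fr hx
  have h1 : de α () x = 0 := by rw [← de_fr α f, h, mul_zero]
  refine hα.aniso _ ?_
  rw [← Lam_pm hα.ne, ← Set.image_univ] at hx
  refine span_orth (fun l _ => ?_) hx
  obtain ⟨c, hc⟩ := Multiset.exists_mem_of_ne_zero (s := l.parts) fun e => by
    have := l.parts_sum
    simp [e] at this
  obtain ⟨ν, hν⟩ := Multiset.exists_cons_of_mem hc
  obtain ⟨c, rfl⟩ := Nat.exists_eq_succ_of_ne_zero (l.parts_pos hc).ne'
  rw [Bf_symm, hν, pm, Multiset.map_cons, Multiset.prod_cons, Bf_p, ← wc_de α _ f, h1]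
  simp

variable {G : ∀ n : ℕ, n.Partition → Om Unit K} {ψ : In n → Om Unit K}

theorem EV.exists_Th (hα : Par α) (h : EV α ψ) (hG : OB α G) (l : (n + 1).Partition) :
    ∃ i c, xp i = l ∧ c ≠ 0 ∧ Pool.Agent.P.MP_dbf8df_co.Th () (ψ i) = (c : K) • G (n + 1) l := by
  by_contra hc
  push Not at hc
  refine hG.ne hα.ne l (de_ne_zero hα (hG.mem _ l) (hα.aniso _ ?_))
  have m := h.span (sh_de_HH hα.ne (hG.mem _ l))
  rw [← Set.image_univ] at m
  refine span_orth (fun i _ => ?_) m
  obtain ⟨c, e⟩ := h.Th hα hG i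
  rw [Bf_symm, ← Bf_Th' α _ (Lam_fr (hG.mem _ l)), e, map_smul, LinearMap.smul_apply]
  by_cases e' : xp i = l
  · by_cases c0 : c = 0
    · rw [c0, zero_smul]
    · exact absurd (e' ▸ e) (hc i c e' c0)
  · rw [hG.orth _ _ _ e', smul_zero]

theorem EV.wc_ne (h : EV α ψ) (hG : OB α G) {i : In n} (hi : ψ i ≠ 0) :
    ∃ c : K, c ≠ 0 ∧ Pool.Agent.P.MP_dbf8df_co.wc () 0 (ψ i) = c • G n (zp i) := by
  obtain ⟨c, hc⟩ := h.wc hG i
  obtain ⟨s, hs⟩ := h.eig i
  exact ⟨c, fun e => hi (eigen_zero hs (by rw [hc, e, zero_smul])), hc⟩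

theorem OB.norm_ne (hα : Par α) (hG : OB α G) (n : ℕ) :
    ∀ l : n.Partition, Bf α (G n l) (gg α 1 ^ n) ≠ 0 := by
  induction n with
  | zero =>
    intro l e
    have h1 := hG.mem 0 l
    rw [Lam, Set.range_unique, mem_span_singleton] at h1
    obtain ⟨c, hc⟩ := h1
    simp only [Nat.Partition.partition_zero_parts, gm, Multiset.map_zero, Multiset.prod_zero] at hc
    refine hG.ne hα.ne l (hα.aniso _ ?_)
    conv_lhs => enter [2]; rw [← hc]
    rw [map_smul, ← pow_zero (gg α 1), e, smul_zero]
  | succ n ih =>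
    intro l e
    obtain ⟨ψ, hψ⟩ := exists_GS (B := Bf α) hα.aniso (rr toLex) (NN (n := n) α)
    have ev := EV_of_GS hα hψ
    obtain ⟨i, c, -, c0, hc⟩ := ev.exists_Th hα hG l
    obtain ⟨d, d0, hd⟩ := ev.wc_ne hG (i := i) fun z => by
      rw [z, map_zero] at hc
      exact smul_ne_zero c0 (hG.ne hα.ne l) hc.symm
    have := Bf_Th_pow hα.ne (ψ i) n
    rw [hc, hd, map_smul, map_smul, LinearMap.smul_apply, LinearMap.smul_apply, e, smul_zero] at this
    exact mul_ne_zero (Nat.cast_add_one_ne_zero n) (smul_ne_zero d0 (ih _)) this.symm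

/-- The strict dominance order. -/
def dl (l k : n.Partition) : Prop := Tm l.parts < Tm k.parts

instance : IsTrans n.Partition dl := ⟨fun _ _ _ => lt_trans⟩

instance : Std.Irrefl (dl (n := n)) := ⟨fun _ => lt_irrefl _⟩

theorem dl_lo {l k : n.Partition} (h : dl l k) : lo l < lo k := Pi.toLex_strictMono h

theorem dom_orth (hG : OB α G) (h : GS (Bf α) dl (fun k : n.Partition => gm α k.parts) (G n))
    {l k : n.Partition} (hk : ¬ Tm l.parts ≤ Tm k.parts) {y : Om Unit K}
    (hy : y ∈ span K ((fun k : n.Partition => gm α k.parts) '' {j | Tm l.parts ≤ Tm j.parts})) :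
    Bf α (G n k) y = 0 :=
  orth_span (hG.orth n) (A := {j | Tm l.parts ≤ Tm j.parts}) hk
    (h.span_le (fun _ hi _ hj => le_trans hi (le_of_lt hj)) hy)

theorem psi_dom (hα : Par α) (hG : OB α G)
    (h : GS (Bf α) dl (fun k : n.Partition => gm α k.parts) (G n))
    (hψ : GS (Bf α) (rr toLex) (NN α) ψ) (i : In n) :
    ψ i ∈ span K (NN α '' {j : In n | Tm (xp i).parts ≤ Tm (xp j).parts}) := by
  have t1 := rr_trans (n := n) toLex.injective
  have t2 : IsTrans (In n) (rr id) := rr_trans Function.injective_id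
  obtain ⟨χ, hχ⟩ := exists_GS (B := Bf α) hα.aniso (rr id) (NN (n := n) α)
  obtain ⟨σ, hσ⟩ := GS.psi_eigen (n := n) hα
  have e1 := hσ _ t1 (fun _ _ => rr_mono) ψ hψ
  have e2 := hσ _ t2 (fun _ _ h => h) χ hχ
  have ev := EV_of_GS hα hψ
  have wf : WellFounded (Function.swap (rr (n := n) id)) :=
    Finite.wellFounded_of_trans_of_irrefl _
  have k : ∀ i, χ i = ψ i := fun i => by
    induction i using wf.induction with
    | _ i ih =>
      have m : χ i - ψ i ∈ span K (NN α '' {j | rr toLex i j}) := by
        have := sub_mem (span_mono (Set.image_mono fun _ => rr_mono) (hχ.sub i)) (hψ.sub i)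
        rwa [sub_sub_sub_cancel_right] at this
      have m' := hψ.span_le (fun _ h1 _ h2 => _root_.trans h1 h2) m
      have mH : χ i ∈ HH α n := hχ.mem (A := Set.univ) trivial fun _ _ => trivial
      have ex := expand hα.aniso ev.orth (ev.span mH)
      have o : ∀ j, rr toLex i j → Bf α (χ i) (ψ j) = 0 := fun j hj => by
        by_cases c : j.a = i.a
        swap
        · exact eigen_orth (e2 i) (e1 j) fun c' => c (hα.irr _ _ _ _ c').symm
        by_cases d : Tm (zp i).parts ≤ Tm (zp j).parts
        · have r : rr id i j := ⟨d, fun t => by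
            have := d t
            simp only [id, Tm_zp, Tm_xp, c] at this ⊢
            omega, hj.2.2⟩
          rw [← ih j r]
          exact hχ.orth_of_rel r
        by_cases z : ψ j = 0
        · rw [z, map_zero]
        obtain ⟨u, u0, hu⟩ := ev.wc_ne hG z
        have a1 : Bf α (G n (zp j)) (wc () 0 (χ i)) = 0 :=
          dom_orth hG h d (span_map _ (fun j hj => subset_span ⟨zp j, hj, (wc_NN j).symm⟩)
            (hχ.mem (A := {j : In n | Tm (zp i).parts ≤ Tm (zp j).parts}) (le_refl (Tm _))
              fun _ hj => hj.1))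
        rw [← ex, map_sum, map_sum, sum_eq_single j (fun j' _ hj' => ?_) (by simp), map_smul, hu,
          map_smul, map_smul, smul_eq_zero, smul_eq_zero, div_eq_zero_iff] at a1
        · rcases a1 with (a1 | a1) | a1 | a1
          · exact a1
          · exact absurd (hα.aniso _ a1) z
          · exact absurd a1 u0
          · exact absurd (hα.aniso _ a1) (hG.ne hα.ne _)
        · by_cases c' : j'.a = i.a
          · obtain ⟨v, hv⟩ := ev.wc hG j'
            rw [map_smul, map_smul, hv, map_smul, hG.orth n (zp j) (zp j') fun e => hj' ?_, smul_zero,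
              smul_zero]
            refine In.ext'' e.symm (Tp_inj (funext fun t => ?_))
            have a2 := Tm_zp j t
            have a3 := Tm_zp j' t
            rw [← e] at a3
            rw [Tm_xp, Tm_xp]
            omega
          · rw [eigen_orth (e2 i) (e1 j') fun c'' => c' (hα.irr _ _ _ _ c'').symm, zero_div,
              zero_smul, map_zero, map_zero]
      refine sub_eq_zero.1 (hα.aniso _ (span_orth (fun j hj => ?_) m'))
      rw [map_sub, LinearMap.sub_apply, o j hj, ev.orth i j hj.2.2, sub_zero]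
  rw [← k]
  exact hχ.mem (A := {j : In n | Tm (xp i).parts ≤ Tm (xp j).parts}) (le_refl (Tm _))
    fun _ hj => hj.2.1

theorem GS_dom (hα : Par α)
    (h : ∀ n, GS (Bf α) (fun l k => lo l < lo k) (fun k : n.Partition => gm α k.parts) (G n))
    (n : ℕ) : GS (Bf α) dl (fun k : n.Partition => gm α k.parts) (G n) := by
  have hG := OB_of_GS hα h
  have mono : ∀ (n : ℕ) (l : n.Partition),
      span K ((fun k : n.Partition => gm α k.parts) '' {k | dl l k})
        ≤ span K ((fun k : n.Partition => gm α k.parts) '' {k | lo l < lo k}) :=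
    fun n l => span_mono (Set.image_mono fun _ => dl_lo)
  induction n with
  | zero =>
    refine ⟨fun l => span_mono (Set.image_mono fun k hk => ?_) ((h 0).sub l),
      fun l y hy => (h 0).orth l y (mono 0 l hy)⟩
    rw [Subsingleton.elim l k] at hk
    exact absurd hk (lt_irrefl (lo k))
  | succ n ih =>
    refine ⟨fun l => ?_, fun l y hy => (h _).orth l y (mono _ l hy)⟩
    obtain ⟨ψ, hψ⟩ := exists_GS (B := Bf α) hα.aniso (rr toLex) (NN (n := n) α)
    obtain ⟨i, c, rfl, c0, hc⟩ := (EV_of_GS hα hψ).exists_Th hα hG l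
    have m : Th () (ψ i) ∈ span K ((fun k : (n + 1).Partition => gm α k.parts) ''
        insert (xp i) {k | dl (xp i) k}) := by
      refine span_map _ (fun j hj => ?_) (psi_dom hα hG ih hψ i)
      rw [Th_NN hα.ne]
      refine smul_mem _ _ (subset_span ⟨xp j, ?_, rfl⟩)
      exact (eq_or_lt_of_le hj).imp (fun e => (Tp_inj e).symm) id
    rw [Set.image_insert_eq, mem_span_insert, hc] at m
    obtain ⟨d, z, hz, e⟩ := m
    have a1 := (h _).orth (xp i) _ ((h _).sub (xp i))
    have a2 := congrArg (Bf α (G (n + 1) (xp i))) e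
    rw [map_sub, sub_eq_zero] at a1
    rw [map_add, map_smul, map_smul, (h _).orth _ _ (mono _ _ hz), add_zero, ← a1, smul_eq_mul,
      smul_eq_mul, mul_left_inj' fun q => hG.ne hα.ne _ (hα.aniso _ q)] at a2
    subst a2
    rw [← smul_mem_iff _ c0, smul_sub, e, add_sub_cancel_left]
    exact hz

theorem exists_JH (hα : Par α) : ∃ J : ∀ n : ℕ, n.Partition → Om Unit K, JH α J ∧
    ∀ (n : ℕ) (l k : n.Partition), Bf α (J n l) (gm α k.parts) ≠ 0 → Tm k.parts ≤ Tm l.parts := by
  choose G hG using fun n : ℕ => exists_GS (B := Bf α) hα.aniso (fun l k : n.Partition => lo l < lo k)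
    fun k : n.Partition => gm α k.parts
  have ob := OB_of_GS hα hG
  refine ⟨fun n l => ((n.factorial : K) / Bf α (G n l) (gg α 1 ^ n)) • G n l,
    ⟨fun n l => smul_mem _ _ (ob.mem n l), fun n l m h => by simp [ob.orth n l m h],
      fun n l k h => ?_, fun n l => ?_⟩, fun n l k h => ?_⟩
  · rw [map_smul, LinearMap.smul_apply, (hG n).orth l _ (subset_span ⟨k, h, rfl⟩), smul_zero]
  · rw [map_smul, LinearMap.smul_apply, smul_eq_mul, div_mul_cancel₀ _ (ob.norm_ne hα n l)]
  · by_contra c
    rw [map_smul, LinearMap.smul_apply,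
      dom_orth ob (GS_dom hα hG n) c (subset_span ⟨k, le_refl (Tm _), rfl⟩), smul_zero] at h
    exact h rfl

end Pool.Agent.P.MP_dbf8df_co
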