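import Pool.Agent.P.MP_dbf8df_co.Series

/-!
Integrality of the connected rooted series.
-/

namespace Pool.Agent.P.MP_dbf8df_co

open MvPolynomial Finset

set_option linter.unusedSectionVars false

variable {τ K : Type} [DecidableEq τ] [Field K] [CharZero K] {α : K}

/-- Coefficientwise action on power series. -/
noncomputable def lf (T : Om τ K →ₗ[K] Om τ K) (f : PowerSeries (Om τ K)) : PowerSeries (Om τ K) :=
  PowerSeries.mk fun n => T (PowerSeries.coeff n f)

theorem coeff_lf (T : Om τ K →ₗ[K] Om τ K) (f : PowerSeries (Om τ K)) (n : ℕ) :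
    PowerSeries.coeff n (lf T f) = T (PowerSeries.coeff n f) := PowerSeries.coeff_mk _ _

theorem lf_add (T : Om τ K →ₗ[K] Om τ K) (f g : PowerSeries (Om τ K)) :
    lf T (f + g) = lf T f + lf T g := PowerSeries.ext fun n => by simp only [coeff_lf, map_add]

theorem lf_sum (T : Om τ K →ₗ[K] Om τ K) (s : Finset ℕ) (f : ℕ → PowerSeries (Om τ K)) :
    lf T (∑ k ∈ s, f k) = ∑ k ∈ s, lf T (f k) :=
  PowerSeries.ext fun n => by simp only [coeff_lf, map_sum]

theorem lf_wl {c : τ} {Φ : PowerSeries (Om τ K)} (h : ∀ n, PowerSeries.coeff n Φ ∈ Fr c)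
    (g : ℕ → Om τ K) (R : PowerSeries (Om τ K)) : lf (wl c g) (Φ * R) = Φ * lf (wl c g) R :=
  PowerSeries.ext fun n => by
    simp only [coeff_lf, PowerSeries.coeff_mul, map_sum, wl_fr_mul (h _)]

theorem lf_de (c : τ) (f g : PowerSeries (Om τ K)) : lf (de α c).toLinearMap (f * g)
    = f * lf (de α c).toLinearMap g + lf (de α c).toLinearMap f * g :=
  PowerSeries.ext fun n => by
    simp only [coeff_lf, PowerSeries.coeff_mul, map_sum, map_add, Derivation.coeFn_coe, de_mul,
      sum_add_distrib]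

theorem lf_Lx {c : τ} {Φ : PowerSeries (Om τ K)} (h : ∀ n, PowerSeries.coeff n Φ ∈ Fr c)
    (R : PowerSeries (Om τ K)) :
    lf (Lx α c) (Φ * R) = Φ * lf (Lx α c) R + lf (de α c).toLinearMap Φ * R :=
  PowerSeries.ext fun n => by
    simp only [coeff_lf, PowerSeries.coeff_mul, map_sum, map_add, Derivation.coeFn_coe,
      Lx_fr_mul α (h _), sum_add_distrib]

theorem lf_de_C (c : τ) (r : K) (f : PowerSeries (Om τ K)) :
    lf (de α c).toLinearMap (PowerSeries.C (C r) * f)
      = PowerSeries.C (C r) * lf (de α c).toLinearMap f :=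
  PowerSeries.ext fun n => by
    simp only [coeff_lf, PowerSeries.coeff_C_mul, C_mul', map_smul]

theorem lf_de_one (c : τ) : lf (de α c).toLinearMap (1 : PowerSeries (Om τ K)) = 0 :=
  PowerSeries.ext fun n => by
    rw [coeff_lf, PowerSeries.coeff_one]
    split_ifs <;> simp

theorem lf_de_pow (c : τ) (f : PowerSeries (Om τ K)) (k : ℕ) :
    lf (de α c).toLinearMap (f ^ (k + 1)) = (k + 1 : ℕ) * (f ^ k * lf (de α c).toLinearMap f) := by
  induction k with
  | zero => simp
  | succ k ih => rw [pow_succ, lf_de, ih]; push_cast; ring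

theorem pow_fr {c : τ} {f : PowerSeries (Om τ K)} (h : ∀ n, PowerSeries.coeff n f ∈ Fr c) (k : ℕ) :
    ∀ n, PowerSeries.coeff n (f ^ k) ∈ Fr c := by
  induction k with
  | zero =>
    intro n
    rw [pow_zero, PowerSeries.coeff_one]
    split_ifs
    exacts [one_mem _, zero_mem _]
  | succ k ih =>
    intro n
    rw [pow_succ, PowerSeries.coeff_mul]
    exact sum_mem fun _ _ => mul_mem (ih _) (h _)

section Log

variable [Algebra ℚ (Om τ K)] {f : PowerSeries (Om τ K)}

theorem coeff_logOf (hf : PowerSeries.constantCoeff f = 1) {m M : ℕ} (h : m ≤ M) :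
    PowerSeries.coeff m (PowerSeries.logOf f) = PowerSeries.coeff m (∑ k ∈ range M,
      PowerSeries.C (C ((-1) ^ k / (k + 1 : ℕ) : K)) * (f - 1) ^ (k + 1)) := by
  have h0 : PowerSeries.constantCoeff (f - 1) = 0 := by rw [map_sub, hf, map_one, sub_self]
  have q : ∀ r : ℚ, algebraMap ℚ (Om τ K) r = C (r : K) := fun r =>
    RingHom.congr_fun (Subsingleton.elim _ (C.comp (Rat.castHom K))) r
  rw [PowerSeries.logOf_eq, PowerSeries.coeff_subst' (.of_constantCoeff_zero' h0),
    finsum_eq_sum_of_support_subset (s := range (M + 1)), sum_range_succ', map_sum]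
  · simp only [PowerSeries.coeff_log, q, PowerSeries.coeff_C_mul, smul_eq_mul]
    simp [pow_succ]
  · intro d hd
    by_contra c
    refine hd ?_
    simp only
    rw [PowerSeries.X_pow_dvd_iff.1 (pow_dvd_pow_of_dvd (PowerSeries.X_dvd_iff.2 h0) d) m
      (by simp at c; omega), smul_zero]

theorem log_fr {c : τ} (hf : PowerSeries.constantCoeff f = 1)
    (h : ∀ n, PowerSeries.coeff n f ∈ Fr c) (m : ℕ) :
    PowerSeries.coeff m (PowerSeries.logOf f) ∈ Fr c := by
  rw [coeff_logOf hf le_rfl, map_sum]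
  refine sum_mem fun k _ => ?_
  rw [PowerSeries.coeff_C_mul]
  refine mul_mem (C_mem_Fr _ _) (pow_fr (fun n => ?_) _ _)
  rw [map_sub, PowerSeries.coeff_one]
  refine sub_mem (h n) ?_
  split_ifs
  exacts [one_mem _, zero_mem _]

theorem log_de (c : τ) (hf : PowerSeries.constantCoeff f = 1) :
    f * lf (de α c).toLinearMap (PowerSeries.logOf f) = lf (de α c).toLinearMap f := by
  have h0 : PowerSeries.constantCoeff (f - 1) = 0 := by rw [map_sub, hf, map_one, sub_self]
  have hY : lf (de α c).toLinearMap (f - 1) = lf (de α c).toLinearMap f := by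
    conv_rhs => rw [← sub_add_cancel f 1, lf_add, lf_de_one, add_zero]
  refine PowerSeries.ext fun n => ?_
  have e1 : PowerSeries.coeff n (f * lf (de α c).toLinearMap (PowerSeries.logOf f))
      = PowerSeries.coeff n (f * lf (de α c).toLinearMap (∑ k ∈ range (n + 1),
        PowerSeries.C (C ((-1) ^ k / (k + 1 : ℕ) : K)) * (f - 1) ^ (k + 1))) := by
    simp only [PowerSeries.coeff_mul, coeff_lf]
    refine sum_congr rfl fun p hp => ?_
    rw [coeff_logOf hf (M := n + 1) (by have := mem_antidiagonal.1 hp; omega)]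
  have e2 : ∀ k : ℕ, lf (de α c).toLinearMap
      (PowerSeries.C (C ((-1) ^ k / (k + 1 : ℕ) : K)) * (f - 1) ^ (k + 1))
      = (-(f - 1)) ^ k * lf (de α c).toLinearMap f := fun k => by
    rw [lf_de_C, lf_de_pow, hY, ← mul_assoc, ← map_natCast (PowerSeries.C (R := Om τ K)),
      ← map_natCast (C (σ := τ × ℕ) (R := K)), ← map_mul, ← map_mul,
      div_mul_cancel₀ _ (Nat.cast_ne_zero.2 k.succ_ne_zero), neg_pow (f - 1)]
    simp [mul_assoc]
  have e3 := mul_neg_geom_sum (-(f - 1)) (n + 1)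
  rw [show 1 - -(f - 1) = f by ring] at e3
  rw [e1, lf_sum]
  simp only [e2]
  rw [← sum_mul, ← mul_assoc, e3, sub_mul, one_mul, map_sub, PowerSeries.X_pow_dvd_iff.1
    ((pow_dvd_pow_of_dvd (PowerSeries.X_dvd_iff.2 h0).neg_right (n + 1)).mul_right _) n
    (Nat.lt_succ_self n), sub_zero]

end Log

/-- Integer combinations of `(α - 1) ^ i α ^ j` with `i + 2 j = d`. -/
def gamA (α : K) (d : ℤ) : AddSubgroup K :=
  AddSubgroup.closure {x | ∃ i j : ℕ, d = i + 2 * j ∧ x = (α - 1) ^ i * α ^ j}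

theorem gamA_fam : Fam (gamA α) := by
  refine ⟨AddSubgroup.subset_closure ⟨0, 0, by simp, by simp⟩, fun {d e x y} hx hy => ?_⟩
  induction hx using AddSubgroup.closure_induction with
  | zero => rw [zero_mul]; exact zero_mem _
  | add a b _ _ ha hb => rw [add_mul]; exact add_mem ha hb
  | neg a _ ha => rw [neg_mul]; exact neg_mem ha
  | mem a ha =>
    induction hy using AddSubgroup.closure_induction with
    | zero => rw [mul_zero]; exact zero_mem _
    | add a b _ _ ha hb => rw [mul_add]; exact add_mem ha hb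
    | neg a _ ha => rw [mul_neg]; exact neg_mem ha
    | mem b hb =>
      obtain ⟨i, j, h1, rfl⟩ := ha
      obtain ⟨i', j', h2, rfl⟩ := hb
      exact AddSubgroup.subset_closure ⟨i + i', j + j', by push_cast; omega, by ring⟩

/-- The weight that counts all power sums. -/
def wl1 (v : τ × ℕ) : ℕ := if v.2 = 0 then 0 else 1

theorem gam_de (c : τ) {n : ℤ} {φ : Om τ K} (h : φ ∈ Lat (gamA α) wl1 n) :
    de α c φ ∈ Lat (gamA α) wl1 (n + 1) := by
  refine Lat.de gamA_fam rfl (AddSubgroup.subset_closure ⟨1, 0, by simp, by simp⟩) (fun k => ?_) h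
  rw [mul_comm, ← nsmul_eq_mul]
  refine nsmul_mem (AddSubgroup.subset_closure ?_) _
  exact ⟨0, 1, by simp [wl1], by simp⟩

theorem gam_Th (c : τ) {n : ℤ} {φ : Om τ K} (h : φ ∈ Lat (gamA α) wl1 n) :
    Th c φ ∈ Lat (gamA α) wl1 (n + 1) := Lat.Th gamA_fam rfl (e := 1) (fun _ => rfl) h

theorem gam_Lx (c : τ) {n : ℤ} {φ : Om τ K} (h : φ ∈ Lat (gamA α) wl1 n) :
    Lx α c φ ∈ Lat (gamA α) wl1 (n + 1) :=
  add_mem (Lat.Cu gamA_fam rfl (e := 1) (fun _ => rfl) h) (gam_de c h)

variable {J : ∀ n : ℕ, n.Partition → Om Unit K}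

theorem exists_root (hα : Par α) (hJ : JH α J) : ∃ R : PowerSeries (Om (Fin 3) K),
    (∀ n : ℕ, PowerSeries.coeff n R ∈ Lat (gamA α) wl1 n) ∧ ∀ c,
      lf (de α c).toLinearMap (PowerSeries.mk fun n => cs α (J n))
        = (PowerSeries.mk fun n => cs α (J n)) * (PowerSeries.X * (PowerSeries.C (X (c, 0))
          * lf (Th (c + 1)) (lf (Th (c + 2)) R))) := by
  choose ψ h1 h2 using exists_psi hα hJ
  have h : PS α J ψ := ⟨h1, h2⟩
  set Φ : PowerSeries (Om (Fin 3) K) := PowerSeries.mk fun n => cs α (J n) with hΦ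
  set Ψ : PowerSeries (Om (Fin 3) K) := PowerSeries.mk fun n => cs α (ψ n) with hΨ
  have c0 : PowerSeries.constantCoeff Φ = 1 := by
    rw [← PowerSeries.coeff_zero_eq_constantCoeff_apply, hΦ, PowerSeries.coeff_mk, cs_zero hJ]
  have fr : ∀ c n, PowerSeries.coeff n Φ ∈ Fr c := fun c n => by
    rw [hΦ, PowerSeries.coeff_mk]
    exact cs_fr hJ c n
  have ne : Φ ≠ 0 := fun e => by simp [e] at c0
  obtain ⟨R, hR⟩ : ∃ R, Ψ = Φ * R := ⟨PowerSeries.invOfUnit Φ 1 * Ψ, by
    rw [← mul_assoc, PowerSeries.mul_invOfUnit Φ 1 c0, one_mul]⟩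
  have d : ∀ c, lf (de α c).toLinearMap Φ = Φ * (PowerSeries.X * (PowerSeries.C (X (c, 0))
      * lf (Th (c + 1)) (lf (Th (c + 2)) R))) := fun c => by
    rw [mul_left_comm, mul_left_comm Φ, Th, Th, ← lf_wl (fr _), ← lf_wl (fr _), ← hR, ← Th, ← Th]
    refine PowerSeries.ext fun n => ?_
    cases n with
    | zero => simp [coeff_lf, c0]
    | succ n =>
      simp only [coeff_lf, PowerSeries.coeff_succ_X_mul, PowerSeries.coeff_C_mul, hΦ, hΨ,
        PowerSeries.coeff_mk, Derivation.coeFn_coe, h.de_succ hα hJ]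
  refine ⟨R, fun n => ?_, d⟩
  have r1 : lf (wc 0 0) R = 1 + PowerSeries.X * (PowerSeries.C (X (0 + 1, 0) * X (0 + 2, 0))
      * lf (Th 0) R) := by
    refine mul_left_cancel₀ ne ?_
    rw [mul_add, mul_one, mul_left_comm, mul_left_comm Φ, Th, wc, ← lf_wl (fr _), ← lf_wl (fr _),
      ← hR, ← Th, ← wc]
    refine PowerSeries.ext fun n => ?_
    cases n with
    | zero =>
      simp only [coeff_lf, map_add, PowerSeries.coeff_zero_X_mul, hΦ, hΨ, PowerSeries.coeff_mk,
        h.wc_zero hα hJ, add_zero]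
    | succ n =>
      simp only [coeff_lf, map_add, PowerSeries.coeff_succ_X_mul, PowerSeries.coeff_C_mul, hΦ, hΨ,
        PowerSeries.coeff_mk, h.wc_succ hα hJ]
  have r2 : ∀ c, lf (Lx α c) Ψ = Φ * (lf (Lx α c) R + PowerSeries.X * (PowerSeries.C (X (c, 0))
      * (lf (Th (c + 1)) (lf (Th (c + 2)) R) * R))) := fun c => by
    rw [hR, lf_Lx (fr c), d]
    ring
  have r3 := mul_left_cancel₀ ne (((r2 0).symm.trans (PowerSeries.ext fun n => by
    simp only [coeff_lf, hΨ, PowerSeries.coeff_mk, h.Lx_eq 0 1])).trans (r2 1))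
  induction n using Nat.strong_induction_on with
  | _ n ih =>
    have q : ∀ c : Fin 3, PowerSeries.coeff n (PowerSeries.X * (PowerSeries.C (X (c, 0))
        * (lf (Th (c + 1)) (lf (Th (c + 2)) R) * R))) ∈ Lat (gamA α) wl1 (n + 1) := fun c => by
      cases n with
      | zero => rw [PowerSeries.coeff_zero_X_mul]; exact zero_mem _
      | succ n =>
        rw [PowerSeries.coeff_succ_X_mul, PowerSeries.coeff_C_mul, PowerSeries.coeff_mul]
        refine Lat.w gamA_fam rfl (sum_mem fun p hp => ?_)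
        have := mem_antidiagonal.1 hp
        rw [coeff_lf, coeff_lf]
        exact Lat.cast (Lat.mul gamA_fam (gam_Th _ (gam_Th _ (ih _ (by omega)))) (ih _ (by omega)))
          (by omega)
    refine key 0 (S' := Lat (gamA α) wl1 (n + 1)) (fun x => Lx α 1 x - de α 0 x)
      (fun x y => by simp only [map_add]; ring) (fun _ => Lat.w gamA_fam rfl)
      (fun _ => Lat.sh gamA_fam rfl) (fun _ => Lat.wc gamA_fam rfl 0) (fun _ => gam_Th 0)
      (fun _ => Lat.div (0, 1)) (fun _ hx => sub_mem (gam_Lx 1 hx) (gam_de 0 hx))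
      (fun _ _ hx => sub_mem (Fl_Lx α (by decide) hx) (Fl_de α 0 0 hx)) ?_ ?_
    · rw [← coeff_lf, r1, map_add, PowerSeries.coeff_one]
      cases n with
      | zero =>
        rw [PowerSeries.coeff_zero_X_mul, add_zero]
        exact Lat.one gamA_fam
      | succ n =>
        rw [PowerSeries.coeff_succ_X_mul, PowerSeries.coeff_C_mul, if_neg n.succ_ne_zero, zero_add,
          mul_assoc, coeff_lf]
        exact Lat.w gamA_fam rfl (Lat.w gamA_fam rfl
          (Lat.cast (gam_Th 0 (ih n (Nat.lt_succ_self n))) (Nat.cast_succ n).symm))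
    · have e := congrArg (PowerSeries.coeff n) r3
      rw [map_add, map_add, coeff_lf, coeff_lf, Lx_apply α 0] at e
      convert sub_mem (q 1) (q 0) using 1
      linear_combination e

theorem rooted [Algebra ℚ (Om (Fin 3) K)] (hα : Par α) (hJ : JH α J) (c : Fin 3) (m i : ℕ)
    (mo : Fin 3 × ℕ →₀ ℕ) (h0 : mo (c, 0) = 0) :
    α * i * mo (c, i) * coeff mo (PowerSeries.coeff (m + 1)
      (PowerSeries.logOf (PowerSeries.mk fun n => cs α (J n))))
      ∈ gamA α (m + 3 - (Finsupp.weight wl1 mo : ℕ)) := by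
  obtain ⟨R, h1, h2⟩ := exists_root hα hJ
  set Φ : PowerSeries (Om (Fin 3) K) := PowerSeries.mk fun n => cs α (J n) with hΦ
  have c0 : PowerSeries.constantCoeff Φ = 1 := by
    rw [← PowerSeries.coeff_zero_eq_constantCoeff_apply, hΦ, PowerSeries.coeff_mk, cs_zero hJ]
  have fr : ∀ n, PowerSeries.coeff n Φ ∈ Fr c := fun n => by
    rw [hΦ, PowerSeries.coeff_mk]
    exact cs_fr hJ c n
  have ne : Φ ≠ 0 := fun e => by simp [e] at c0
  have e := congrArg (PowerSeries.coeff (m + 1))
    (mul_left_cancel₀ ne ((log_de (α := α) c c0).trans (h2 c)))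
  rw [coeff_lf, PowerSeries.coeff_succ_X_mul, PowerSeries.coeff_C_mul, coeff_lf, coeff_lf,
    Derivation.coeFn_coe] at e
  have a := Lat.wc (c := c) gamA_fam rfl i
    (Lat.w (c := c) gamA_fam rfl (gam_Th (c + 1) (gam_Th (c + 2) (h1 m))))
  rw [← e, wc_de α i (log_fr c0 fr _)] at a
  by_cases z : mo (c, i) = 0
  · rw [z, Nat.cast_zero, mul_zero, zero_mul]
    exact zero_mem _
  · have i0 : i ≠ 0 := fun e => z (e ▸ h0)
    obtain ⟨mo', rfl⟩ : ∃ mo', mo = mo' + Finsupp.single (c, i) 1 :=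
      ⟨mo - Finsupp.single (c, i) 1, (tsub_add_cancel_of_le (by
        rw [Finsupp.single_le_iff]; omega)).symm⟩
    have := a mo'
    rw [coeff_C_mul, coeff_pderiv] at this
    convert this using 1
    · simp only [map_add, Finsupp.weight_single, wl1, if_neg i0, smul_eq_mul]
      push_cast
      ring_nf
    · simp only [Finsupp.add_apply, Finsupp.single_eq_same]
      push_cast
      ring

end Pool.Agent.P.MP_dbf8df_co
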