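import Pool.Agent.P.MP_dbf8df_co.Defs
import Pool.Agent.P.MP_dbf8df_co.Exist
import Pool.Agent.P.MP_dbf8df_co.Main

/-!
Translation between the definitions of the statement and the polynomial ring model.
-/

namespace Pool.Agent.P.MP_dbf8df_co

open MvPolynomial Finset Submodule

set_option linter.unusedSectionVars false

section Lists

theorem take_le (L : List ℕ) (t : ℕ) : ∀ k, (L.take k).sum ≤ Tm L t + k * t := by
  induction L with
  | nil => simp
  | cons a L ih =>
    intro k
    cases k with
    | zero => simp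
    | succ k =>
      have := ih k
      rw [List.take_succ_cons, List.sum_cons, ← Multiset.cons_coe, Tm_cons, Nat.succ_mul]
      omega

theorem Tm_zero_of_le {L : List ℕ} {t : ℕ} (h : ∀ x ∈ L, x ≤ t) : Tm L t = 0 := by
  induction L with
  | nil => rfl
  | cons a L ih =>
    have := h a (by simp)
    rw [← Multiset.cons_coe, Tm_cons, ih fun x hx => h x (by simp [hx])]
    omega

theorem exists_take {L : List ℕ} (h : L.Pairwise (· ≥ ·)) (t : ℕ) :
    ∃ k, (L.take k).sum = Tm L t + k * t := by
  induction L with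
  | nil => exact ⟨0, by simp [Tm]⟩
  | cons a L ih =>
    rw [List.pairwise_cons] at h
    by_cases c : t ≤ a
    · obtain ⟨k, hk⟩ := ih h.2
      refine ⟨k + 1, ?_⟩
      rw [List.take_succ_cons, List.sum_cons, ← Multiset.cons_coe, Tm_cons, Nat.succ_mul]
      omega
    · refine ⟨0, ?_⟩
      rw [Tm_zero_of_le fun x hx => ?_]
      · simp
      · rcases List.mem_cons.1 hx with rfl | hx
        · omega
        · have := h.1 x hx
          omega

theorem exists_level {L : List ℕ} (h : L.Pairwise (· ≥ ·)) :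
    ∀ k, ∃ t, (∀ b, (∀ x ∈ L, x ≤ b) → t ≤ b) ∧ (L.take k).sum = Tm L t + k * t := by
  induction L with
  | nil => exact fun k => ⟨0, by simp, by simp [Tm]⟩
  | cons a L ih =>
    rw [List.pairwise_cons] at h
    intro k
    cases k with
    | zero =>
      refine ⟨a, fun b hb => hb a (by simp), ?_⟩
      rw [Tm_zero_of_le fun x hx => ?_]
      · simp
      · rcases List.mem_cons.1 hx with rfl | hx
        exacts [le_rfl, h.1 x hx]
    | succ k =>
      obtain ⟨t, h1, h2⟩ := ih h.2 k
      have := h1 a h.1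
      refine ⟨t, fun b hb => this.trans (hb a (by simp)), ?_⟩
      rw [List.take_succ_cons, List.sum_cons, ← Multiset.cons_coe, Tm_cons, Nat.succ_mul]
      omega

theorem rows_coe {n : ℕ} (l : n.Partition) : (rows l : Multiset ℕ) = l.parts := Multiset.sort_eq _ _

theorem Dom_iff {n : ℕ} {k l : n.Partition} : Dom k l ↔ Tm k.parts ≤ Tm l.parts := by
  rw [← rows_coe k, ← rows_coe l]
  constructor
  · intro h t
    obtain ⟨j, hj⟩ := exists_take (L := rows k) (Multiset.pairwise_sort _ _) t
    have a1 := h j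
    have a2 := take_le (rows l) t j
    exact (by omega : Tm (rows k) t ≤ Tm (rows l) t)
  · intro h j
    obtain ⟨t, -, ht⟩ := exists_level (L := rows l) (Multiset.pairwise_sort _ _) j
    have a1 : Tm (rows k) t ≤ Tm (rows l) t := h t
    have a2 := take_le (rows k) t j
    omega

end Lists

variable {K : Type} [Field K] [CharZero K] {α : K} {n : ℕ}

theorem prod_getD (n : ℕ) : ∀ L : List ℕ, L.length ≤ n →
    ∏ j : Fin n, gg α (L.getD j 0) = gm α L := by
  induction n with
  | zero =>
    intro L h
    rw [List.length_eq_zero_iff.1 (Nat.le_zero.1 h)]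
    simp [gm]
  | succ n ih =>
    intro L h
    cases L with
    | nil => simp [gm, gg_zero]
    | cons a L =>
      rw [Fin.prod_univ_succ, ← Multiset.cons_coe, gm_cons, ← ih L (by simpa using h)]
      simp

theorem prod_expo (k : n.Partition) : ∏ j, gg α (expo k j) = gm α k.parts := by
  rw [← rows_coe, ← prod_getD n]
  · rfl
  · have := Multiset.card_nsmul_le_sum (s := k.parts) (a := 1) fun x hx => k.parts_pos hx
    rw [k.parts_sum, smul_eq_mul, mul_one, ← rows_coe] at this
    exact this

theorem der_prod {I R : Type} [DecidableEq I] [CommRing R] [Algebra K R] (D : Derivation K R R)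
    (f : I → R) (s : Finset I) :
    D (∏ j ∈ s, f j) = ∑ j ∈ s, D (f j) * ∏ i ∈ s.erase j, f i := by
  induction s using Finset.induction_on with
  | empty => simp
  | insert a s ha ih =>
    rw [prod_insert ha, sum_insert ha, erase_insert ha, Derivation.leibniz, ih, smul_eq_mul,
      smul_eq_mul, add_comm, mul_comm, mul_sum]
    congr 1
    refine sum_congr rfl fun j hj => ?_
    rw [erase_insert_of_ne (fun e : a = j => ha (e ▸ hj)), prod_insert fun c => ha (mem_of_mem_erase c)]
    ring

theorem const_gg (m : ℕ) : constantCoeff (gg α m) = if m = 0 then 1 else 0 := by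
  cases m with
  | zero => simp [gg_zero]
  | succ m => rw [gg]; simp

theorem cauchy {N : ℕ} (h : α ≠ 0) (ν : Multiset ℕ) (hν : ∀ k ∈ ν, 0 < k) : ∀ η : Fin N →₀ ℕ,
    coeff η (ν.map fun k => ∑ j : Fin N, (X j : MvPolynomial (Fin N) K) ^ k).prod
      = Bf α (pm K ν) (∏ j, gg α (η j)) := by
  induction ν using Multiset.induction_on with
  | empty =>
    intro η
    simp only [pm, Multiset.map_zero, Multiset.prod_zero]
    rw [show (1 : Om Unit K) = monomial 0 1 from rfl, Bf_monomial, zw_zero, one_mul, one_mul,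
      ← constantCoeff_eq, map_prod, coeff_one]
    simp only [const_gg]
    split_ifs with c
    · simp [← c]
    · obtain ⟨j, hj⟩ : ∃ j, η j ≠ 0 := by
        by_contra q
        push Not at q
        exact c (Finsupp.ext q).symm
      exact (prod_eq_zero (mem_univ j) (if_neg hj)).symm
  | cons c ν ih =>
    intro η
    obtain ⟨c, rfl⟩ := Nat.exists_eq_succ_of_ne_zero (hν c (by simp)).ne'
    rw [pm, Multiset.map_cons, Multiset.map_cons, Multiset.prod_cons, Multiset.prod_cons, ← pm,
      Bf_p, der_prod, mul_sum, map_sum, sum_mul, coeff_sum]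
    refine sum_congr rfl fun j _ => ?_
    rw [← mul_assoc, pd_gg h, X_pow_eq_monomial, coeff_monomial_mul']
    simp only [Finsupp.single_le_iff]
    split_ifs with e
    · rw [one_mul, ih fun k hk => hν k (by simp [hk]), ← mul_prod_erase _ _ (mem_univ j)]
      congr 2
      · simp
      · refine prod_congr rfl fun i hi => ?_
        simp [Finsupp.single_eq_of_ne (ne_of_mem_erase hi)]
    · simp

theorem zw_parts (l : n.Partition) :
    zw α (Multiset.toFinsupp (l.parts.map fun k => ((), k))) = zee l * α ^ l.parts.card := by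
  have inj : Function.Injective fun k : ℕ => (((), k) : Unit × ℕ) :=
    fun _ _ e => congrArg Prod.snd e
  rw [zw, Finsupp.prod, Multiset.toFinsupp_support, Multiset.toFinset_map,
    prod_image fun _ _ _ _ e => inj e, zee, ← Multiset.toFinset_sum_count_eq, ← prod_pow_eq_pow_sum,
    Nat.cast_prod, ← prod_mul_distrib]
  refine prod_congr rfl fun k hk => ?_
  rw [if_neg (l.parts_pos (Multiset.mem_toFinset.1 hk)).ne', Multiset.toFinsupp_apply,
    Multiset.count_map_eq_count' _ _ inj]
  push_cast
  ring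

/-- The polynomial with the given coefficients in the power sum basis. -/
noncomputable def toH (f : n.Partition → K) : Om Unit K := ∑ l, f l • pm K l.parts

theorem coeff_toH (f : n.Partition → K) (l : n.Partition) :
    coeff (Multiset.toFinsupp (l.parts.map fun k => ((), k))) (toH f) = f l := by
  simp only [toH, coeff_sum, coeff_smul, pm_eq, coeff_monomial, ex_inj.eq_iff]
  simp

theorem Bf_toH (f g : n.Partition → RatFunc ℚ) : Bf RatFunc.X (toH f) (toH g) = scal f g := by
  rw [toH, map_sum, LinearMap.sum_apply]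
  refine sum_congr rfl fun l _ => ?_
  rw [map_smul, LinearMap.smul_apply, pm_eq, Bf_monomial, coeff_toH, zw_parts, smul_eq_mul]
  ring

theorem coeff_inVars (f : n.Partition → RatFunc ℚ) (η : Fin n →₀ ℕ) :
    coeff η (inVars f) = Bf RatFunc.X (toH f) (∏ j, gg RatFunc.X (η j)) := by
  rw [toH, inVars, map_sum, LinearMap.sum_apply, coeff_sum]
  refine sum_congr rfl fun l _ => ?_
  rw [coeff_C_mul, cauchy RatFunc.X_ne_zero _ fun _ => l.parts_pos, map_smul, LinearMap.smul_apply,
    smul_eq_mul]

theorem coeff_expo (f : n.Partition → RatFunc ℚ) (k : n.Partition) :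
    coeff (expo k) (inVars f) = Bf RatFunc.X (toH f) (gm RatFunc.X k.parts) := by
  rw [coeff_inVars, prod_expo]

theorem coeff_ones (f : n.Partition → RatFunc ℚ) :
    coeff (Finsupp.equivFunOnFinite.symm fun _ => 1) (inVars f)
      = Bf RatFunc.X (toH f) (gg RatFunc.X 1 ^ n) := by
  rw [coeff_inVars]
  simp

theorem toH_mem (h : α ≠ 0) (f : n.Partition → K) : toH f ∈ Lam α n :=
  sum_mem fun l _ => smul_mem _ _ (pm_le h (subset_span ⟨l, rfl⟩))

theorem exists_toH (h : α ≠ 0) {x : Om Unit K} (hx : x ∈ Lam α n) :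
    ∃ f : n.Partition → K, toH f = x := by
  rw [← Lam_pm h] at hx
  exact (mem_span_range_iff_exists_fun K).1 hx

theorem ren_toH (W : Fin 3) (f : n.Partition → RatFunc ℚ) : ren W (toH f) = inAlph W f := by
  simp only [toH, inAlph, map_sum, smul_eq_C_mul, map_mul, ren_C, pm, map_multiset_prod,
    Multiset.map_map, Function.comp_def, ren_X]

theorem par_X : Par (RatFunc.X : RatFunc ℚ) := by
  have t1 : Transcendental ℚ (liouvilleNumber (2 : ℕ)) := fun c =>
    transcendental_liouvilleNumber le_rfl ((IsFractionRing.isAlgebraic_iff ℤ ℚ ℝ).2 c)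
  have t2 := t1.pow (n := 2) (by norm_num)
  have inj : Function.Injective (Polynomial.aeval (R := ℚ) (liouvilleNumber (2 : ℕ) ^ 2)).toRingHom :=
    transcendental_iff_injective.1 t2
  set f : RatFunc ℚ →+* ℝ := IsFractionRing.lift inj with hf
  have e : f RatFunc.X = liouvilleNumber (2 : ℕ) ^ 2 := by
    rw [← RatFunc.algebraMap_X, hf, IsFractionRing.lift_algebraMap]
    simp
  refine ⟨fun φ => Bf_aniso f ?_, RatFunc.X_ne_zero, fun a a' s s' h => ?_⟩
  · rw [e]
    exact lt_of_le_of_ne (sq_nonneg _) fun c => t2 (c ▸ isAlgebraic_zero)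
  · by_contra c
    have h1 := congrArg f h
    simp only [map_sub, map_mul, map_natCast, e] at h1
    have h2 := t2.irrational.mul_intCast (m := (a : ℤ) - a') (by omega)
    refine h2.ne_int ((s : ℤ) - s') ?_
    push_cast
    linear_combination h1

theorem JH_of {J : ∀ n : ℕ, n.Partition → n.Partition → RatFunc ℚ} (hJ : IsJack J) :
    JH RatFunc.X fun n l => toH (J n l) := by
  refine ⟨fun n l => toH_mem RatFunc.X_ne_zero _, fun n l k h => ?_, fun n l k h => ?_,
    fun n l => ?_⟩
  · rw [Bf_toH, hJ.orth n l k h]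
  · by_contra c
    rw [← coeff_expo] at c
    exact absurd (Pi.toLex_monotone (Dom_iff.1 (hJ.tri n l k c))) (not_le.2 h)
  · rw [← coeff_ones, hJ.norm]

theorem exists_jack : ∃ J, IsJack J := by
  obtain ⟨J, h1, h2⟩ := exists_JH par_X
  choose f hf using fun n l => exists_toH RatFunc.X_ne_zero (h1.mem n l)
  refine ⟨f, fun n l k h => ?_, fun n l k h => ?_, fun n l => ?_⟩
  · rw [← Bf_toH, hf, hf, h1.orth n l k h]
  · rw [coeff_expo, hf] at h
    exact Dom_iff.2 (h2 n l k h)
  · rw [coeff_ones, hf, h1.norm]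

theorem Phi_eq (J : ∀ n : ℕ, n.Partition → n.Partition → RatFunc ℚ) :
    Phi J = PowerSeries.mk fun n => cs RatFunc.X fun l => toH (J n l) := by
  simp only [Phi, cs, Bf_toH, cube, ren_toH, smul_eq_C_mul]

theorem mono_apply (ρ : Fin 3 → n.Partition) (c : Fin 3) (i : ℕ) :
    mono ρ (c, i) = (ρ c).parts.count i := by
  rw [mono, Finsupp.finsetSum_apply, sum_eq_single c (fun W _ hW => ?_) (by simp),
    Multiset.toFinsupp_apply, Multiset.count_map_eq_count' _ _ fun _ _ e => congrArg Prod.snd e]
  rw [Multiset.toFinsupp_apply, Multiset.count_eq_zero, Multiset.mem_map]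
  rintro ⟨k, -, e⟩
  exact hW (congrArg Prod.fst e)

theorem weight_mono (ρ : Fin 3 → n.Partition) :
    Finsupp.weight wl1 (mono ρ) = ∑ W, (ρ W).parts.card := by
  rw [mono, map_sum]
  refine sum_congr rfl fun W _ => ?_
  have k : ∀ ν : Multiset ℕ, (∀ k ∈ ν, 0 < k) →
      Finsupp.weight wl1 (Multiset.toFinsupp (ν.map fun k => (W, k))) = ν.card := fun ν h => by
    induction ν using Multiset.induction_on with
    | empty => simp
    | cons c ν ih =>
      rw [Multiset.map_cons, ← Multiset.singleton_add, map_add, map_add,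
        Multiset.toFinsupp_singleton, ih fun k hk => h k (by simp [hk]), Finsupp.weight_single]
      simp [wl1, (h c (by simp)).ne', add_comm]
  exact k _ fun _ => (ρ W).parts_pos

theorem IntForm_of {d : ℤ} {x : RatFunc ℚ} (h : x ∈ gamA RatFunc.X d) : IntForm d x := by
  induction h using AddSubgroup.closure_induction with
  | zero => exact ⟨0, by simp⟩
  | add a b _ _ ha hb =>
    obtain ⟨u, rfl⟩ := ha
    obtain ⟨v, rfl⟩ := hb
    exact ⟨u + v, by simp [add_mul, sum_add_distrib]⟩
  | neg a _ ha =>
    obtain ⟨u, rfl⟩ := ha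
    exact ⟨-u, by simp⟩
  | mem a ha =>
    obtain ⟨i, j, rfl, rfl⟩ := ha
    refine ⟨Pi.single j 1, ?_⟩
    rw [sum_eq_single j (fun k _ hk => by simp [hk]) fun c => absurd (mem_filter.2
      ⟨mem_range.2 (by omega), by omega⟩) c]
    simp

theorem rooted_hc {J : ∀ n : ℕ, n.Partition → n.Partition → RatFunc ℚ} (hJ : IsJack J) {m : ℕ}
    (hm : 1 ≤ m) (ρ : Fin 3 → m.Partition) (W : Fin 3) (i : ℕ) :
    ((i * (ρ W).parts.count i : ℕ) : RatFunc ℚ) / m * hc J m ρ
      ∈ gamA RatFunc.X (m + 2 - ∑ W, ((ρ W).parts.card : ℤ)) := by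
  obtain ⟨m, rfl⟩ := Nat.exists_eq_add_of_le' hm
  have := rooted par_X (JH_of hJ) W m i (mono ρ) (by
    rw [mono_apply, Multiset.count_eq_zero]
    exact fun c => ((ρ W).parts_pos c).false)
  rw [← Phi_eq, mono_apply, weight_mono] at this
  convert this using 1
  · push_cast
    ring_nf
  · have : ((m + 1 : ℕ) : RatFunc ℚ) ≠ 0 := Nat.cast_ne_zero.2 m.succ_ne_zero
    rw [hc]
    field_simp
    push_cast
    ring

theorem plain_hc {J : ∀ n : ℕ, n.Partition → n.Partition → RatFunc ℚ} (hJ : IsJack J) {m : ℕ}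
    (hm : 1 ≤ m) (ρ : Fin 3 → m.Partition) :
    hc J m ρ ∈ gamA RatFunc.X (m + 2 - ∑ W, ((ρ W).parts.card : ℤ)) := by
  have := sum_mem fun i (_ : i ∈ (ρ 0).parts.toFinset) => rooted_hc hJ hm ρ 0 i
  rw [← sum_mul, ← sum_div, ← Nat.cast_sum (R := RatFunc ℚ)] at this
  have e : ∑ i ∈ (ρ 0).parts.toFinset, i * (ρ 0).parts.count i = m := by
    conv_rhs => rw [← (ρ 0).parts_sum, Finset.sum_multiset_count]
    simp [mul_comm]
  rwa [e, div_self (Nat.cast_ne_zero.2 (by omega)), one_mul] at this

end Pool.Agent.P.MP_dbf8df_co
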