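import Mathlib

/-!
Definitions for the statement: Jack symmetric functions over `ℚ(α)` and the coefficients
`h^π_{μ,ν}` of Goulden and Jackson.  The field `ℚ(α)` is `RatFunc ℚ` and `α` is `RatFunc.X`.
A homogeneous symmetric function of degree `n` is given by its coefficients `f π` in the basis of
power sums `p_π`, where `π` runs over the partitions of `n`.
-/

namespace Pool.Agent.P.MP_dbf8df_co

open MvPolynomial Finset

/-- `z_π = ∏ i ^ m_i * m_i !`, where `m_i` is the number of parts equal to `i`. -/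
def zee {n : ℕ} (π : n.Partition) : ℕ :=
  ∏ i ∈ π.parts.toFinset, i ^ π.parts.count i * (π.parts.count i).factorial

/-- The Jack scalar product `⟨p_π, p_μ⟩ = δ z_π α ^ ℓ(π)` of `∑ f π p_π` and `∑ g π p_π`. -/
noncomputable def scal {n : ℕ} (f g : n.Partition → RatFunc ℚ) : RatFunc ℚ :=
  ∑ π : n.Partition, (zee π : RatFunc ℚ) * RatFunc.X ^ π.parts.card * (f π * g π)

/-- The parts of a partition in weakly decreasing order. -/
def rows {n : ℕ} (π : n.Partition) : List ℕ := π.parts.sort (· ≥ ·)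

/-- The dominance order `κ ≤ l`. -/
def Dom {n : ℕ} (κ l : n.Partition) : Prop :=
  ∀ k : ℕ, ((rows κ).take k).sum ≤ ((rows l).take k).sum

/-- The symmetric function `∑ f π p_π` of degree `n` as a polynomial in `x_1, …, x_n`. -/
noncomputable def inVars {n : ℕ} (f : n.Partition → RatFunc ℚ) :
    MvPolynomial (Fin n) (RatFunc ℚ) :=
  ∑ π : n.Partition, C (f π) * (π.parts.map fun k => ∑ j : Fin n, X j ^ k).prod

/-- The exponent vector of the monomial `x_1 ^ κ_1 ⋯ x_n ^ κ_n`. -/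
noncomputable def expo {n : ℕ} (κ : n.Partition) : Fin n →₀ ℕ :=
  Finsupp.equivFunOnFinite.symm fun j => (rows κ).getD j 0

/-- `J n l = J_l`, for `l` a partition of `n`, is the family of Jack symmetric functions in
integral normalisation: pairwise orthogonal, `J_l` is a combination of monomial symmetric functions
`m_κ` with `κ ≤ l` in dominance order, and the coefficient of `x_1 ⋯ x_n` is `n !`. -/
structure IsJack (J : ∀ n : ℕ, n.Partition → n.Partition → RatFunc ℚ) : Prop where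
  orth : ∀ (n : ℕ) (l κ : n.Partition), l ≠ κ → scal (J n l) (J n κ) = 0
  tri : ∀ (n : ℕ) (l κ : n.Partition), coeff (expo κ) (inVars (J n l)) ≠ 0 → Dom κ l
  norm : ∀ (n : ℕ) (l : n.Partition),
    coeff (Finsupp.equivFunOnFinite.symm fun _ => 1) (inVars (J n l)) = (n.factorial : RatFunc ℚ)

/-- The symmetric function `∑ f π p_π [W]` in the alphabet `W`; the variable `(W, k)` is
`p_k [W]`. -/
noncomputable def inAlph {n : ℕ} (W : Fin 3) (f : n.Partition → RatFunc ℚ) :
    MvPolynomial (Fin 3 × ℕ) (RatFunc ℚ) :=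
  ∑ π : n.Partition, C (f π) * (π.parts.map fun k => X (W, k)).prod

/-- The series `Φ = ∑ u ^ |l| j_l⁻¹ J_l [X] J_l [Y] J_l [Z]`, a power series in `u`. -/
noncomputable def Phi (J : ∀ n : ℕ, n.Partition → n.Partition → RatFunc ℚ) :
    PowerSeries (MvPolynomial (Fin 3 × ℕ) (RatFunc ℚ)) :=
  PowerSeries.mk fun n =>
    ∑ l : n.Partition, C (scal (J n l) (J n l))⁻¹ * ∏ W : Fin 3, inAlph W (J n l)

/-- The exponent vector of the monomial `p_(ρ 0) [X] p_(ρ 1) [Y] p_(ρ 2) [Z]`. -/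
noncomputable def mono {m : ℕ} (ρ : Fin 3 → m.Partition) : Fin 3 × ℕ →₀ ℕ :=
  ∑ W : Fin 3, Multiset.toFinsupp ((ρ W).parts.map fun k => (W, k))

/-- `h^π_{μ,ν} = m α [u ^ m p_π [X] p_μ [Y] p_ν [Z]] log Φ` for `(π, μ, ν) = (ρ 0, ρ 1, ρ 2)`. -/
noncomputable def hc (J : ∀ n : ℕ, n.Partition → n.Partition → RatFunc ℚ) (m : ℕ)
    (ρ : Fin 3 → m.Partition) : RatFunc ℚ :=
  (m : RatFunc ℚ) * RatFunc.X * coeff (mono ρ) (PowerSeries.coeff m (PowerSeries.logOf (Phi J)))

/-- `x = ∑ a_j b ^ (d - 2 j) (1 + b) ^ j` over `0 ≤ 2 j ≤ d` with integers `a_j`, where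
`b = α - 1` (so `x = 0` when `d < 0`). -/
def IntForm (d : ℤ) (x : RatFunc ℚ) : Prop :=
  ∃ a : ℕ → ℤ, x = ∑ j ∈ (range (d.toNat + 1)).filter (fun j : ℕ => 2 * (j : ℤ) ≤ d),
    (a j : RatFunc ℚ) * (RatFunc.X - 1) ^ (d - 2 * (j : ℤ)).toNat * (1 + (RatFunc.X - 1)) ^ j

end Pool.Agent.P.MP_dbf8df_co
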