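import Pool.Agent.P.MP_dbf8df_co.Lat

/-!
The scalar product, the symmetry of the Lax operator and orthogonalisation along a strict order.
-/

namespace Pool.Agent.P.MP_dbf8df_co

open MvPolynomial Finset

variable {K : Type} [Field K]

/-- The weight of a monomial in the scalar product. -/
noncomputable def zw (α : K) (m : Unit × ℕ →₀ ℕ) : K :=
  m.prod fun v e => if v.2 = 0 then 1 else (α * v.2) ^ e * (e.factorial : K)

/-- The scalar product. -/
noncomputable def Bf (α : K) : LinearMap.BilinForm K (Om Unit K) :=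
  (basisMonomials (Unit × ℕ) K).constr K fun m => zw α m • lcoeff K m

theorem zw_zero (α : K) : zw α 0 = 1 := Finsupp.prod_zero_index

theorem zw_succ (α : K) (v : Unit × ℕ) (m : Unit × ℕ →₀ ℕ) :
    zw α (Finsupp.single v 1 + m) = (if v.2 = 0 then 1 else α * v.2 * (m v + 1)) * zw α m := by
  have h0 : ∀ u : Unit × ℕ, (if u.2 = 0 then 1 else (α * u.2) ^ 0 * ((0 : ℕ).factorial : K)) = 1 :=
    fun u => by simp
  rw [zw, zw, ← Finsupp.mul_prod_erase' _ v _ h0, ← Finsupp.mul_prod_erase' m v _ h0,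
    Finsupp.erase_add, Finsupp.erase_single, zero_add, Finsupp.add_apply, Finsupp.single_eq_same]
  split_ifs
  · simp
  · rw [add_comm 1, Nat.factorial_succ]
    push_cast
    ring

theorem zw_w (α : K) (k : ℕ) (m : Unit × ℕ →₀ ℕ) :
    zw α (Finsupp.single ((), 0) k + m) = zw α m := by
  induction k with
  | zero => simp
  | succ k ih => rw [add_comm k, Finsupp.single_add, add_assoc, zw_succ, ih]; simp

theorem Bf_monomial (α : K) (m : Unit × ℕ →₀ ℕ) (r : K) (χ : Om Unit K) :
    Bf α (monomial m r) χ = r * (zw α m * coeff m χ) := by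
  rw [show (monomial m r : Om Unit K) = r • monomial m 1 by
    rw [smul_monomial, smul_eq_mul, mul_one], map_smul, LinearMap.smul_apply, smul_eq_mul]
  congr 1
  exact LinearMap.congr_fun ((basisMonomials (Unit × ℕ) K).constr_basis K _ m) χ

theorem Bf_symm (α : K) (φ χ : Om Unit K) : Bf α φ χ = Bf α χ φ := by
  induction φ using lin_ind with
  | ha f g hf hg => simp only [map_add, LinearMap.add_apply, hf, hg]
  | hm m r =>
    induction χ using lin_ind with
    | ha f g hf hg => simp only [map_add, LinearMap.add_apply, hf, hg]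
    | hm m' r' =>
      rw [Bf_monomial, Bf_monomial, coeff_monomial, coeff_monomial]
      by_cases h : m = m'
      · subst h
        simp only [if_true]
        ring
      · simp [h, Ne.symm h]

theorem Bf_eq (α : K) (φ χ : Om Unit K) :
    Bf α φ χ = ∑ m ∈ φ.support, coeff m φ * (zw α m * coeff m χ) := by
  conv_lhs => rw [φ.as_sum, map_sum, LinearMap.sum_apply]
  simp only [Bf_monomial]

theorem Bf_aniso {α : K} (f : K →+* ℝ) (hf : 0 < f α) {φ : Om Unit K} (h : Bf α φ φ = 0) :
    φ = 0 := by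
  have z : ∀ m, 0 < f (zw α m) := fun m => by
    rw [zw, Finsupp.prod, map_prod]
    refine prod_pos fun v _ => ?_
    split_ifs with e
    · simp
    · simp only [map_mul, map_pow, map_natCast]
      have := Nat.pos_of_ne_zero e
      positivity
  have h1 := congrArg f h
  rw [Bf_eq, map_sum, map_zero, sum_eq_zero_iff_of_nonneg fun m _ => by
    simp only [map_mul]
    nlinarith [z m, mul_self_nonneg (f (coeff m φ))]] at h1
  refine MvPolynomial.ext _ _ fun m => ?_
  by_contra hc
  have := h1 m (mem_support_iff.2 hc)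
  simp only [map_mul, mul_eq_zero, map_eq_zero] at this
  have := (z m).ne'
  simp_all

theorem Bf_w_w (α : K) (φ χ : Om Unit K) : Bf α (X ((), 0) * φ) (X ((), 0) * χ) = Bf α φ χ := by
  induction φ using lin_ind with
  | ha f g hf hg => simp only [mul_add, map_add, LinearMap.add_apply, hf, hg]
  | hm m r =>
    rw [Bf_monomial, ← coeff_X_mul m ((), 0) χ, ← zw_w α 1 m, ← Bf_monomial, X, monomial_mul,
      one_mul]

theorem Bf_w_fr (α : K) (φ : Om Unit K) {f : Om Unit K} (hf : f ∈ Fr ()) :
    Bf α (X ((), 0) * φ) f = 0 := by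
  induction φ using lin_ind with
  | ha f g hf hg => simp only [mul_add, map_add, LinearMap.add_apply, hf, hg, add_zero]
  | hm m r => rw [X, monomial_mul, Bf_monomial, Fr_iff.1 hf _ (by simp), mul_zero, mul_zero]

theorem Bf_wc (α : K) (φ : Om Unit K) {f : Om Unit K} (hf : f ∈ Fr ()) :
    Bf α (wc () 0 φ) f = Bf α φ f := by
  conv_rhs => rw [← split () φ, map_add, LinearMap.add_apply, Bf_w_fr α _ hf, add_zero]

theorem Bf_sh (α : K) (φ χ : Om Unit K) : Bf α (sh () φ) χ = Bf α φ (X ((), 0) * χ) := by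
  conv_rhs => rw [← split () φ, map_add, LinearMap.add_apply, Bf_w_w, Bf_symm,
    Bf_w_fr α _ (wc_mem_Fr () 0 φ), zero_add]

theorem Bf_p (α : K) (k : ℕ) (φ χ : Om Unit K) :
    Bf α (X ((), k + 1) * φ) χ = Bf α φ (C (α * (k + 1 : ℕ)) * pderiv ((), k + 1) χ) := by
  induction φ using lin_ind with
  | ha f g hf hg => simp only [mul_add, map_add, LinearMap.add_apply, hf, hg]
  | hm m r =>
    rw [X, monomial_mul, Bf_monomial, Bf_monomial, zw_succ, coeff_C_mul, coeff_pderiv, add_comm m]
    simp only [Nat.succ_ne_zero, if_false]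
    ring

theorem Bf_Th (α : K) (x : Om Unit K) {f : Om Unit K} (hf : f ∈ Fr ()) :
    Bf α (Th () x) f = Bf α (X ((), 0) * x) (de α () f) := by
  induction x using lin_ind with
  | ha f g hf hg => simp only [mul_add, map_add, LinearMap.add_apply, hf, hg]
  | hm m r =>
    rw [Th, wl_monomial, Bf_p, ← wc_de α _ hf, Bf_monomial, coeff_wc _ _ (by simp),
      ← zw_w α (m ((), 0) + 1), ← Bf_monomial, X, monomial_mul, one_mul, add_comm (m _),
      Finsupp.single_add, add_assoc, Finsupp.single_add_erase]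

theorem Bf_Th' (α : K) (x : Om Unit K) {f : Om Unit K} (hf : f ∈ Fr ()) :
    Bf α (Th () x) f = Bf α x (sh () (de α () f)) := by
  rw [Bf_Th α x hf, ← Bf_w_w α x, de_fr α hf]

theorem Lx_symm (α : K) (φ χ : Om Unit K) : Bf α (Lx α () φ) χ = Bf α φ (Lx α () χ) := by
  induction φ using w_induction () generalizing χ with
  | h0 => simp
  | hs f x hf ih =>
    have hg := wc_mem_Fr () 0 χ
    rw [← split () χ]
    generalize wc () 0 χ = g at hg
    generalize sh () χ = y
    have z : ∀ {f g : Om Unit K}, f ∈ Fr () → g ∈ Fr () → Bf α (de α () f) g = 0 :=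
      fun hf hg => by rw [← de_fr α hf, Bf_w_fr α _ hg]
    have z' : ∀ {f : Om Unit K} (y : Om Unit K), f ∈ Fr () → Bf α f (X ((), 0) * y) = 0 :=
      fun y hf => by rw [Bf_symm, Bf_w_fr α _ hf]
    simp only [map_add, LinearMap.add_apply, Lx_w, Lx_fr α hf, Lx_fr α hg, Bf_w_w, ih, z hf hg,
      Bf_w_fr α _ hg, z' _ hf, z' _ (Th_mem_Fr () x), Bf_w_fr α _ (Th_mem_Fr () y), C_mul',
      map_smul, LinearMap.smul_apply, Bf_Th α x hg, Bf_symm α f (de α () g), z hg hf,
      Bf_symm α f (Th () y), Bf_Th α y hf, Bf_symm α (de α () f) (X ((), 0) * y)]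
    ring

section GS

open Submodule

variable {V I : Type} [AddCommGroup V] [Module K V] {B : LinearMap.BilinForm K V}

theorem exists_proj (hB : ∀ x, B x x = 0 → x = 0) (W : Submodule K V) [FiniteDimensional K W]
    (v : V) : ∃ w ∈ W, ∀ y ∈ W, B (v - w) y = 0 := by
  have inj : Function.Injective (B.domRestrict₁₂ W W) := by
    rw [injective_iff_map_eq_zero]
    intro x hx
    exact Subtype.ext (hB _ (LinearMap.congr_fun hx x))
  have sur := (LinearMap.injective_iff_surjective_of_finrank_eq_finrank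
    (Subspace.dual_finrank_eq (K := K) (V := W)).symm).1 inj
  obtain ⟨w, hw⟩ := sur ((B v).domRestrict W)
  refine ⟨w, w.2, fun y hy => ?_⟩
  have : B w y = B v y := LinearMap.congr_fun hw ⟨y, hy⟩
  rw [map_sub, LinearMap.sub_apply, this, sub_self]

/-- `ψ` is obtained from `N` by orthogonalisation along the strict order `r`. -/
structure GS (B : LinearMap.BilinForm K V) (r : I → I → Prop) (N ψ : I → V) : Prop where
  sub : ∀ i, ψ i - N i ∈ span K (N '' {j | r i j})
  orth : ∀ i, ∀ y ∈ span K (N '' {j | r i j}), B (ψ i) y = 0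

theorem exists_GS [Finite I] (hB : ∀ x, B x x = 0 → x = 0) (r : I → I → Prop) (N : I → V) :
    ∃ ψ, GS B r N ψ := by
  have : ∀ i, ∃ w ∈ span K (N '' {j | r i j}), ∀ y ∈ span K (N '' {j | r i j}),
      B (N i - w) y = 0 := fun i => by
    have := FiniteDimensional.span_of_finite K ((Set.toFinite {j | r i j}).image N)
    exact exists_proj hB _ _
  choose w h1 h2 using this
  exact ⟨fun i => N i - w i, fun i => by simpa using h1 i, h2⟩

variable {r : I → I → Prop} {N ψ : I → V}

theorem GS.mem (h : GS B r N ψ) {A : Set I} {i : I} (hi : i ∈ A) (hA : ∀ j, r i j → j ∈ A) :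
    ψ i ∈ span K (N '' A) := by
  rw [← sub_add_cancel (ψ i) (N i)]
  exact add_mem (span_mono (Set.image_mono hA) (h.sub i)) (subset_span ⟨i, hi, rfl⟩)

theorem GS.span_le [Finite I] [IsTrans I r] [Std.Irrefl r] (h : GS B r N ψ) {A : Set I}
    (hA : ∀ i ∈ A, ∀ j, r i j → j ∈ A) : span K (N '' A) ≤ span K (ψ '' A) := by
  have wf : WellFounded (Function.swap r) := Finite.wellFounded_of_trans_of_irrefl _
  have k : ∀ i, i ∈ A → N i ∈ span K (ψ '' A) := fun i => by
    induction i using wf.induction with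
    | _ i ih =>
      intro hi
      rw [← sub_sub_cancel (ψ i) (N i)]
      refine sub_mem (subset_span ⟨i, hi, rfl⟩) (Submodule.span_le.2 ?_ (h.sub i))
      rintro _ ⟨j, hj, rfl⟩
      exact ih j hj (hA i hi j hj)
  rw [Submodule.span_le]
  rintro _ ⟨i, hi, rfl⟩
  exact k i hi

theorem GS.eigen [IsTrans I r] (h : GS B r N ψ) (hB : ∀ x, B x x = 0 → x = 0)
    {L : V →ₗ[K] V} (hL : ∀ x y, B (L x) y = B x (L y)) {s : I → K}
    (ht : ∀ i, L (N i) - s i • N i ∈ span K (N '' {j | r i j})) (i : I) : L (ψ i) = s i • ψ i := by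
  have inv : ∀ y ∈ span K (N '' {j | r i j}), L y ∈ span K (N '' {j | r i j}) := by
    intro y hy
    refine mem_comap.1 ((Submodule.span_le (p := comap L _)).2 ?_ hy)
    rintro _ ⟨j, hj, rfl⟩
    refine mem_comap.2 ?_
    rw [← sub_add_cancel (L (N j)) (s j • N j)]
    exact add_mem (span_mono (Set.image_mono fun k hk => _root_.trans hj hk) (ht j))
      (smul_mem _ _ (subset_span ⟨j, hj, rfl⟩))
  have m : L (ψ i) - s i • ψ i ∈ span K (N '' {j | r i j}) := by
    have := sub_mem (add_mem (inv _ (h.sub i)) (ht i)) (smul_mem _ (s i) (h.sub i))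
    convert this using 1
    rw [map_sub, smul_sub]
    abel
  refine sub_eq_zero.1 (hB _ ?_)
  have e : ∀ y ∈ span K (N '' {j | r i j}), B (L (ψ i) - s i • ψ i) y = 0 := fun y m => by
    rw [map_sub, LinearMap.sub_apply, hL, map_smul, LinearMap.smul_apply, h.orth i _ (inv _ m),
      h.orth i _ m]
    simp
  exact e _ m

theorem GS.orth_of_rel [IsTrans I r] (h : GS B r N ψ) {i j : I} (hij : r i j) :
    B (ψ i) (ψ j) = 0 :=
  h.orth i _ (h.mem hij fun _ hk => _root_.trans hij hk)

theorem orth_span {ψ : I → V} (ho : ∀ i j, i ≠ j → B (ψ i) (ψ j) = 0) {A : Set I} {i : I}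
    (hi : i ∉ A) {y : V} (hy : y ∈ span K (ψ '' A)) : B (ψ i) y = 0 := by
  refine (span_le (p := LinearMap.ker (B (ψ i)))).2 ?_ hy
  rintro _ ⟨j, hj, rfl⟩
  exact ho i j fun e => hi (e ▸ hj)

theorem expand [Fintype I] (hB : ∀ x, B x x = 0 → x = 0) {ψ : I → V}
    (ho : ∀ i j, i ≠ j → B (ψ i) (ψ j) = 0) {v : V} (hv : v ∈ span K (Set.range ψ)) :
    ∑ i, (B v (ψ i) / B (ψ i) (ψ i)) • ψ i = v := by
  induction hv using span_induction with
  | mem x hx =>
    obtain ⟨j, rfl⟩ := hx
    rw [sum_eq_single j (fun i _ hi => by rw [ho j i hi.symm, zero_div, zero_smul]) (by simp)]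
    by_cases h : B (ψ j) (ψ j) = 0
    · rw [hB _ h, smul_zero]
    · rw [div_self h, one_smul]
  | zero => simp
  | add x y _ _ hx hy => simp only [map_add, LinearMap.add_apply, add_div, add_smul,
      sum_add_distrib, hx, hy]
  | smul a x _ hx =>
    simp only [map_smul, LinearMap.smul_apply, smul_eq_mul, mul_div_assoc, mul_smul, ← smul_sum, hx]

end GS

end Pool.Agent.P.MP_dbf8df_co
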