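import Pool.Agent.P.MP_dbf8df_co.Ops

/-!
Graded lattices of polynomials and the triangularity lemma for the cut operator.
-/

namespace Pool.Agent.P.MP_dbf8df_co

open MvPolynomial Finset

set_option linter.unusedSectionVars false

variable {τ K : Type} [DecidableEq τ] [Field K]

/-- A multiplicative family of additive subgroups. -/
structure Fam (A : ℤ → AddSubgroup K) : Prop where
  one : (1 : K) ∈ A 0
  mul : ∀ {d e : ℤ} {x y : K}, x ∈ A d → y ∈ A e → x * y ∈ A (d + e)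

/-- Polynomials whose coefficient at `m` lies in `A (n - weight m)`. -/
def Lat (A : ℤ → AddSubgroup K) (wt : τ × ℕ → ℕ) (n : ℤ) : AddSubgroup (Om τ K) where
  carrier := {φ | ∀ m, coeff m φ ∈ A (n - (Finsupp.weight wt m : ℕ))}
  add_mem' := fun h h' m => by rw [coeff_add]; exact add_mem (h m) (h' m)
  zero_mem' := fun m => by rw [coeff_zero]; exact zero_mem _
  neg_mem' := fun h m => by rw [coeff_neg]; exact neg_mem (h m)

variable {A : ℤ → AddSubgroup K} {wt : τ × ℕ → ℕ}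

theorem mem_Lat {n : ℤ} {φ : Om τ K} :
    φ ∈ Lat A wt n ↔ ∀ m, coeff m φ ∈ A (n - (Finsupp.weight wt m : ℕ)) := Iff.rfl

theorem Lat.cast {n n' : ℤ} {φ : Om τ K} (h : φ ∈ Lat A wt n) (e : n = n') : φ ∈ Lat A wt n' :=
  e ▸ h

theorem Lat.mul (hA : Fam A) {n k : ℤ} {φ χ : Om τ K} (h : φ ∈ Lat A wt n) (h' : χ ∈ Lat A wt k) :
    φ * χ ∈ Lat A wt (n + k) := fun m => by
  classical
  rw [coeff_mul]
  refine sum_mem fun x hx => ?_
  have := hA.mul (h x.1) (h' x.2)
  rw [← mem_antidiagonal.1 hx, map_add]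
  convert this using 2
  push_cast
  ring

theorem Lat.monomial {n : ℤ} {m : τ × ℕ →₀ ℕ} {r : K} (h : r ∈ A (n - (Finsupp.weight wt m : ℕ))) :
    (monomial m r : Om τ K) ∈ Lat A wt n := fun m' => by
  classical
  rw [coeff_monomial]
  split_ifs with e
  · exact e ▸ h
  · exact zero_mem _

theorem Lat.C {n : ℤ} {r : K} (h : r ∈ A n) : (C r : Om τ K) ∈ Lat A wt n :=
  Lat.monomial (by simpa using h)

theorem Lat.mon (hA : Fam A) (m : τ × ℕ →₀ ℕ) :
    (MvPolynomial.monomial m 1 : Om τ K) ∈ Lat A wt (Finsupp.weight wt m : ℕ) :=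
  Lat.monomial (by simpa using hA.one)

theorem Lat.X (hA : Fam A) (v : τ × ℕ) : (X v : Om τ K) ∈ Lat A wt (wt v) := by
  exact Lat.cast (Lat.mon (wt := wt) hA (Finsupp.single v 1)) (by simp [Finsupp.weight_single])

theorem Lat.one (hA : Fam A) : (1 : Om τ K) ∈ Lat A wt 0 := Lat.C hA.one

theorem Lat.w_pow (hA : Fam A) {v : τ × ℕ} (h : wt v = 0) (a : ℕ) :
    (MvPolynomial.X v ^ a : Om τ K) ∈ Lat A wt 0 := by
  induction a with
  | zero => exact Lat.one hA
  | succ a ih => rw [pow_succ]; exact Lat.cast (Lat.mul hA ih (Lat.X hA v)) (by simp [h])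

theorem Lat.map (hA : Fam A) (T : Om τ K →ₗ[K] Om τ K) {e : ℤ}
    (hT : ∀ m, T (MvPolynomial.monomial m 1) ∈ Lat A wt ((Finsupp.weight wt m : ℕ) + e)) {n : ℤ}
    {φ : Om τ K} (h : φ ∈ Lat A wt n) : T φ ∈ Lat A wt (n + e) := by
  rw [φ.as_sum, map_sum]
  refine sum_mem fun m _ => ?_
  rw [show MvPolynomial.monomial m (coeff m φ) = coeff m φ • MvPolynomial.monomial m (1 : K) by
    rw [smul_monomial, smul_eq_mul, mul_one], map_smul, smul_eq_C_mul]
  exact Lat.cast (Lat.mul hA (Lat.C (h m)) (hT m)) (by ring)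

theorem Lat.wl (hA : Fam A) {c : τ} (hw : wt (c, 0) = 0) {g : ℕ → Om τ K} {e : ℤ}
    (hg : ∀ a, g a ∈ Lat A wt e) {n : ℤ} {φ : Om τ K} (h : φ ∈ Lat A wt n) :
    wl c g φ ∈ Lat A wt (n + e) := by
  refine Lat.map hA _ (fun m => ?_) h
  rw [wl_monomial]
  refine Lat.cast (Lat.mul hA (hg _) (Lat.mon hA _)) ?_
  conv_rhs => rw [← Finsupp.single_add_erase (c, 0) m, map_add, Finsupp.weight_single, hw]
  simp [add_comm]

theorem Lat.der (hA : Fam A) (D : Derivation K (Om τ K) (Om τ K)) {e : ℤ}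
    (hD : ∀ v, D (MvPolynomial.X v) ∈ Lat A wt (wt v + e)) {n : ℤ} {φ : Om τ K}
    (h : φ ∈ Lat A wt n) : D φ ∈ Lat A wt (n + e) := by
  refine Lat.map hA D.toLinearMap (fun m => ?_) h
  have k : ∀ m m' : τ × ℕ →₀ ℕ,
      D (MvPolynomial.monomial m 1) ∈ Lat A wt ((Finsupp.weight wt m : ℕ) + e) →
      D (MvPolynomial.monomial m' 1) ∈ Lat A wt ((Finsupp.weight wt m' : ℕ) + e) →
      D (MvPolynomial.monomial (m + m') 1) ∈ Lat A wt ((Finsupp.weight wt (m + m') : ℕ) + e) := by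
    intro m m' h h'
    rw [← one_mul (1 : K), ← monomial_mul, Derivation.leibniz, smul_eq_mul, smul_eq_mul, map_add]
    exact add_mem (Lat.cast (Lat.mul hA (Lat.mon hA m) h') (by push_cast; ring))
      (Lat.cast (Lat.mul hA (Lat.mon hA m') h) (by push_cast; ring))
  have z : D (MvPolynomial.monomial 0 1)
      ∈ Lat A wt ((Finsupp.weight wt (0 : τ × ℕ →₀ ℕ) : ℕ) + e) := by
    rw [show (MvPolynomial.monomial 0 1 : Om τ K) = 1 from rfl, D.map_one_eq_zero]
    exact zero_mem _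
  change D _ ∈ _
  induction m using Finsupp.induction_linear with
  | zero => exact z
  | add m m' h h' => exact k m m' h h'
  | single v j =>
    induction j with
    | zero => rw [Finsupp.single_zero]; exact z
    | succ j ih =>
      rw [Finsupp.single_add]
      refine k _ _ ih ?_
      exact Lat.cast (hD v) (by simp [Finsupp.weight_single])

theorem Lat.div {n : ℤ} {φ : Om τ K} (v : τ × ℕ) (h : φ ∈ Lat A wt (n + wt v)) :
    φ.divMonomial (Finsupp.single v 1) ∈ Lat A wt n := fun m => by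
  rw [coeff_divMonomial]
  convert h (Finsupp.single v 1 + m) using 2
  simp only [map_add, Finsupp.weight_single, smul_eq_mul, one_mul]
  push_cast
  ring

theorem Lat.sh (hA : Fam A) {c : τ} (hw : wt (c, 0) = 0) {n : ℤ} {φ : Om τ K}
    (h : φ ∈ Lat A wt n) : sh c φ ∈ Lat A wt n :=
  by
  refine Lat.cast (Lat.wl hA hw (e := 0) (fun a => ?_) h) (add_zero n)
  split_ifs
  exacts [zero_mem _, Lat.w_pow hA hw _]

theorem Lat.wc (hA : Fam A) {c : τ} (hw : wt (c, 0) = 0) (k : ℕ) {n : ℤ} {φ : Om τ K}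
    (h : φ ∈ Lat A wt n) : wc c k φ ∈ Lat A wt n :=
  by
  refine Lat.cast (Lat.wl hA hw (e := 0) (fun a => ?_) h) (add_zero n)
  split_ifs
  exacts [Lat.one hA, zero_mem _]

theorem Lat.w (hA : Fam A) {c : τ} (hw : wt (c, 0) = 0) {n : ℤ} {φ : Om τ K}
    (h : φ ∈ Lat A wt n) : MvPolynomial.X (c, 0) * φ ∈ Lat A wt n :=
  Lat.cast (Lat.mul hA (Lat.X hA (c, 0)) h) (by simp [hw])

theorem Lat.Th (hA : Fam A) {c : τ} (hw : wt (c, 0) = 0) {e : ℕ} (hp : ∀ k, wt (c, k + 1) = e)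
    {n : ℤ} {φ : Om τ K} (h : φ ∈ Lat A wt n) : Th c φ ∈ Lat A wt (n + e) :=
  Lat.wl hA hw (fun a => Lat.cast (Lat.X hA (c, a + 1)) (by rw [hp])) h

theorem Lat.Cu (hA : Fam A) {c : τ} (hw : wt (c, 0) = 0) {e : ℕ} (hp : ∀ k, wt (c, k + 1) = e)
    {n : ℤ} {φ : Om τ K} (h : φ ∈ Lat A wt n) : Cu c φ ∈ Lat A wt (n + e) :=
  Lat.wl hA hw (fun a => sum_mem fun k _ =>
    Lat.cast (Lat.mul hA (Lat.X hA (c, k + 1)) (Lat.w_pow hA hw _)) (by rw [hp, add_zero])) h

theorem Lat.de (hA : Fam A) {α : K} {c : τ} (hw : wt (c, 0) = 0) {e : ℤ} (h1 : α - 1 ∈ A e)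
    (h2 : ∀ k : ℕ, α * (k + 1 : ℕ) ∈ A (wt (c, k + 1) + e)) {n : ℤ} {φ : Om τ K}
    (h : φ ∈ Lat A wt n) : de α c φ ∈ Lat A wt (n + e) := by
  refine Lat.der hA _ (fun v => ?_) h
  obtain ⟨c', j⟩ := v
  by_cases e1 : c' = c
  · subst e1
    cases j with
    | zero => rw [de_w]; exact Lat.cast (Lat.mul hA (Lat.C h1) (Lat.X hA _)) (by ring)
    | succ j => rw [de_p]; exact Lat.cast (Lat.mul hA (Lat.C (h2 j)) (Lat.w_pow hA hw _)) (by ring)
  · rw [de_ne α e1]
    exact zero_mem _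

/-- The family that measures the degree. -/
def degA (K : Type) [Field K] (d : ℤ) : AddSubgroup K := if 0 ≤ d then ⊤ else ⊥

theorem mem_degA {d : ℤ} (h : 0 ≤ d) (x : K) : x ∈ degA K d := by simp [degA, h]

theorem degA_fam : Fam (degA K) := by
  refine ⟨mem_degA le_rfl _, fun {d e x y} hx hy => ?_⟩
  by_cases h1 : 0 ≤ d
  · by_cases h2 : 0 ≤ e
    · exact mem_degA (by omega) _
    · rw [degA, if_neg h2, AddSubgroup.mem_bot] at hy
      rw [hy, mul_zero]
      exact zero_mem _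
  · rw [degA, if_neg h1, AddSubgroup.mem_bot] at hx
    rw [hx, zero_mul]
    exact zero_mem _

/-- The weight that counts the power sums of the alphabet `c`. -/
def wtc (c : τ) (v : τ × ℕ) : ℕ := if v.1 = c ∧ v.2 ≠ 0 then 1 else 0

/-- Polynomials with at most `l` power sums of the alphabet `c` in each monomial. -/
def Fl (c : τ) (l : ℤ) : AddSubgroup (Om τ K) := Lat (degA K) (wtc c) l

theorem Fl_neg (c : τ) {φ : Om τ K} (h : φ ∈ Fl c (-1)) : φ = 0 :=
  MvPolynomial.ext _ _ fun m => by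
    have := h m
    rw [degA, if_neg (by omega)] at this
    exact this

theorem exists_Fl (c : τ) (φ : Om τ K) : ∃ l : ℕ, φ ∈ Fl c (l - 1) := by
  refine ⟨weightedTotalDegree (wtc c) φ + 1, fun m => ?_⟩
  by_cases h : coeff m φ = 0
  · rw [h]
    exact zero_mem _
  · have := le_weightedTotalDegree (wtc c) (mem_support_iff.2 h)
    exact mem_degA (by omega) _

theorem Fl_de (α : K) (c c' : τ) {l : ℤ} {φ : Om τ K} (h : φ ∈ Fl c l) : de α c' φ ∈ Fl c l :=
  Lat.cast (Lat.de degA_fam (by simp [wtc]) (e := 0) (mem_degA le_rfl _)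
    (fun _ => mem_degA (by omega) _) h) (add_zero l)

theorem Fl_Lx (α : K) {c c' : τ} (hc : c' ≠ c) {l : ℤ} {φ : Om τ K} (h : φ ∈ Fl c l) :
    Lx α c' φ ∈ Fl c l :=
  add_mem (Lat.cast (Lat.Cu degA_fam (by simp [wtc]) (e := 0) (fun _ => by simp [wtc, hc]) h)
    (by simp)) (Fl_de α c c' h)

theorem sup_map {S S' F F' : AddSubgroup (Om τ K)} (T : Om τ K → Om τ K)
    (ha : ∀ x y, T (x + y) = T x + T y) (h1 : ∀ x ∈ S, T x ∈ S') (h2 : ∀ x ∈ F, T x ∈ F')
    {x : Om τ K} (h : x ∈ S ⊔ F) : T x ∈ S' ⊔ F' := by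
  obtain ⟨y, hy, z, hz, rfl⟩ := AddSubgroup.mem_sup.1 h
  rw [ha]
  exact AddSubgroup.add_mem_sup (h1 y hy) (h2 z hz)

/-- The cut operator determines a polynomial from its constant term in `w`, over any lattice. -/
theorem key (c : τ) {S S' : AddSubgroup (Om τ K)} (T : Om τ K → Om τ K)
    (ha : ∀ x y, T (x + y) = T x + T y) (hw : ∀ x ∈ S, X (c, 0) * x ∈ S)
    (hs : ∀ x ∈ S', sh c x ∈ S') (hc : ∀ x ∈ S', wc c 0 x ∈ S') (ht : ∀ x ∈ S, Th c x ∈ S')
    (hd : ∀ x ∈ S', x.divMonomial (Finsupp.single (c, 1) 1) ∈ S) (hT : ∀ x ∈ S, T x ∈ S')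
    (hF : ∀ l, ∀ x ∈ Fl c l, T x ∈ Fl c l) {φ : Om τ K} (h0 : wc c 0 φ ∈ S)
    (h1 : Cu c φ - T φ ∈ S') : φ ∈ S := by
  have w0 : wtc c (c, 0) = 0 := by simp [wtc]
  have w1 : ∀ k, wtc c (c, k + 1) = 1 := fun k => by simp [wtc]
  have mw : ∀ l x, x ∈ S ⊔ Fl c l → X (c, 0) * x ∈ S ⊔ Fl c l := fun l x =>
    sup_map (fun x => X (c, 0) * x) (mul_add _) hw fun _ => Lat.w degA_fam w0
  have inner : ∀ (l : ℤ) (ψ : Om τ K), Cu c ψ ∈ S' ⊔ Fl c (l + 1) → sh c ψ ∈ S ⊔ Fl c l := by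
    intro l ψ
    induction ψ using w_induction c with
    | h0 => intro _; rw [map_zero]; exact zero_mem _
    | hs f x hf ih =>
      rw [map_add, map_add, Cu_fr hf, sh_fr hf, zero_add, zero_add, sh_w, Cu_w]
      intro h
      have a1 := sup_map (sh c) (map_add _) hs (fun _ => Lat.sh degA_fam w0) h
      have a2 := sup_map (wc c 0) (map_add _) hc (fun _ => Lat.wc degA_fam w0 0) h
      rw [map_add, sh_fr (Th_mem_Fr c x), zero_add, sh_w] at a1
      rw [map_add, wc_fr (Th_mem_Fr c x), wc_w, add_zero, ← split c x, map_add,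
        Th_fr (wc_mem_Fr c 0 x)] at a2
      have a3 := mw l _ (ih a1)
      have a4 := sup_map (Th c) (map_add _) ht (fun _ => Lat.Th degA_fam w0 w1) a3
      have a5 := (add_mem_cancel_right a4).1 a2
      have a6 := sup_map (S' := S) (F' := Fl c l)
        (fun x => x.divMonomial (Finsupp.single (c, 1) 1)) (fun x y => add_divMonomial x y _) hd
        (fun x hx => Lat.div (c, 1) (by rw [w1 0]; exact hx)) a5
      rw [X_mul_divMonomial] at a6
      rw [← split c x]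
      exact add_mem a6 a3
  have outer : ∀ l : ℕ, φ ∈ S ⊔ Fl c (l - 1) → φ ∈ S := fun l => by
    induction l with
    | zero =>
      intro h
      obtain ⟨y, hy, z, hz, rfl⟩ := AddSubgroup.mem_sup.1 h
      rw [Fl_neg c (φ := z) (by simpa using hz), add_zero]
      exact hy
    | succ l ih =>
      intro h
      refine ih ?_
      have a1 := sup_map T ha hT (hF _) h
      have a2 := add_mem (AddSubgroup.mem_sup_left h1) a1
      rw [sub_add_cancel, show ((l + 1 : ℕ) : ℤ) - 1 = l - 1 + 1 by push_cast; ring] at a2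
      rw [← split c φ]
      exact add_mem (AddSubgroup.mem_sup_left h0) (mw _ _ (inner _ _ a2))
  obtain ⟨l, hl⟩ := exists_Fl c φ
  exact outer l (AddSubgroup.mem_sup_right hl)

/-- An eigenvector of the Lax operator is determined by its constant term in `w`. -/
theorem eigen_zero {α s : K} {c : τ} {φ : Om τ K} (h : Lx α c φ = s • φ) (h0 : wc c 0 φ = 0) :
    φ = 0 := by
  refine AddSubgroup.mem_bot.1 (key c (S := ⊥) (S' := ⊥) (fun x => s • x - de α c x)
    (fun x y => by rw [smul_add, map_add]; ring) ?_ ?_ ?_ ?_ ?_ ?_ (fun l x hx => ?_) h0 ?_)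
  any_goals simp
  · refine sub_mem ?_ (Fl_de α c c hx)
    rw [smul_eq_C_mul]
    exact Lat.cast (Lat.mul degA_fam (Lat.C (mem_degA le_rfl s)) hx) (zero_add l)
  · rw [← h, Lx_apply]
    ring

end Pool.Agent.P.MP_dbf8df_co
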