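import Mathlib

/-!
Operators on polynomial rings with several alphabets.  In the alphabet `c` the variable `(c, k)`
with `k ≥ 1` is the power sum `p_k` and the variable `(c, 0)` is the spectral variable `w`.
-/

namespace Pool.Agent.P.MP_dbf8df_co

open MvPolynomial Finset

set_option linter.unusedSectionVars false

/-- The polynomial ring in the alphabets `τ`. -/
abbrev Om (τ K : Type) [CommSemiring K] : Type := MvPolynomial (τ × ℕ) K

variable {τ K : Type} [DecidableEq τ] [Field K]

/-- Polynomials without the spectral variable of the alphabet `c`. -/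
noncomputable def Fr (c : τ) : Subalgebra K (Om τ K) := supported K {v | v ≠ (c, 0)}

/-- The map that is linear over `Fr c` and sends `w ^ a` to `g a`. -/
noncomputable def wl (c : τ) (g : ℕ → Om τ K) : Om τ K →ₗ[K] Om τ K :=
  (basisMonomials (τ × ℕ) K).constr K fun m => g (m (c, 0)) * monomial (m.erase (c, 0)) 1

theorem X_mem_Fr {c : τ} {v : τ × ℕ} (h : v ≠ (c, 0)) : (X v : Om τ K) ∈ Fr c :=
  X_mem_supported.2 h

theorem p_mem_Fr (c c' : τ) (k : ℕ) : (X (c', k + 1) : Om τ K) ∈ Fr c :=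
  X_mem_Fr (by simp)

theorem C_mem_Fr (c : τ) (r : K) : (C r : Om τ K) ∈ Fr c := Subalgebra.algebraMap_mem _ r

theorem Fr_iff {c : τ} {f : Om τ K} : f ∈ Fr c ↔ ∀ m, m (c, 0) ≠ 0 → coeff m f = 0 := by
  rw [Fr, mem_supported]
  constructor
  · intro h m hm
    by_contra hc
    exact h (mem_coe.2 ((mem_vars_iff_mem_support _).2 ⟨m, mem_support_iff.2 hc,
      Finsupp.mem_support_iff.2 hm⟩)) rfl
  · intro h v hv e
    obtain ⟨m, h1, h2⟩ := (mem_vars_iff_mem_support _).1 (mem_coe.1 hv)
    subst e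
    exact mem_support_iff.1 h1 (h m (Finsupp.mem_support_iff.1 h2))

theorem monomial_mem_Fr {c : τ} {m : τ × ℕ →₀ ℕ} (h : m (c, 0) = 0) (r : K) :
    (monomial m r : Om τ K) ∈ Fr c :=
  Fr_iff.2 fun m' hm => by
    rw [coeff_monomial, if_neg]
    rintro rfl
    exact hm h

theorem Fr_induction {c : τ} {P : Om τ K → Prop} (hC : ∀ r, P (C r))
    (hX : ∀ v, v ≠ (c, 0) → P (X v)) (ha : ∀ f g, f ∈ Fr c → g ∈ Fr c → P f → P g → P (f + g))
    (hm : ∀ f g, f ∈ Fr c → g ∈ Fr c → P f → P g → P (f * g)) {f : Om τ K} (hf : f ∈ Fr c) :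
    P f := by
  refine Algebra.adjoin_induction (p := fun f _ => P f) ?_ hC ha hm hf
  rintro _ ⟨v, hv, rfl⟩
  exact hX v hv

theorem wl_monomial (c : τ) (g : ℕ → Om τ K) (m : τ × ℕ →₀ ℕ) (r : K) :
    wl c g (monomial m r) = g (m (c, 0)) * monomial (m.erase (c, 0)) r := by
  have h : ∀ m' : τ × ℕ →₀ ℕ, (monomial m' r : Om τ K) = r • monomial m' 1 := fun m' => by
    rw [smul_monomial, smul_eq_mul, mul_one]
  rw [h, h, map_smul, mul_smul_comm, wl]
  congr 1
  exact (basisMonomials (τ × ℕ) K).constr_basis K _ m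

theorem lin_ind {P : Om τ K → Prop} (hm : ∀ m r, P (monomial m r))
    (ha : ∀ f g, P f → P g → P (f + g)) (φ : Om τ K) : P φ :=
  induction_on' φ hm ha

theorem wl_X_mul {c : τ} {v : τ × ℕ} (h : v ≠ (c, 0)) (g : ℕ → Om τ K) (φ : Om τ K) :
    wl c g (X v * φ) = X v * wl c g φ := by
  induction φ using lin_ind with
  | ha f g hf hg => simp only [mul_add, map_add, hf, hg]
  | hm m r =>
    rw [X, monomial_mul, wl_monomial, wl_monomial, Finsupp.erase_add,
      Finsupp.erase_single_ne h.symm, Finsupp.add_apply, Finsupp.single_eq_of_ne h.symm, zero_add,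
      ← monomial_mul]
    ring

theorem wl_w_mul (c : τ) (g : ℕ → Om τ K) (φ : Om τ K) :
    wl c g (X (c, 0) * φ) = wl c (fun a => g (a + 1)) φ := by
  induction φ using lin_ind with
  | ha f g hf hg => simp only [mul_add, map_add, hf, hg]
  | hm m r =>
    rw [X, monomial_mul, wl_monomial, wl_monomial, Finsupp.erase_add, Finsupp.erase_single,
      Finsupp.add_apply, Finsupp.single_eq_same, zero_add, one_mul, add_comm]

theorem wl_fr_mul {c : τ} {f : Om τ K} (hf : f ∈ Fr c) (g : ℕ → Om τ K) (φ : Om τ K) :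
    wl c g (f * φ) = f * wl c g φ := by
  revert φ
  refine Fr_induction (P := fun f => ∀ φ, wl c g (f * φ) = f * wl c g φ) ?_ ?_ ?_ ?_ hf
  · intro r φ
    rw [C_mul', C_mul', map_smul]
  · intro v hv φ
    exact wl_X_mul hv g φ
  · intro f f' _ _ h h' φ
    simp only [add_mul, map_add, h, h']
  · intro f f' _ _ h h' φ
    rw [mul_assoc, h, h', mul_assoc]

theorem wl_fr {c : τ} {f : Om τ K} (hf : f ∈ Fr c) (g : ℕ → Om τ K) : wl c g f = g 0 * f := by
  have := wl_fr_mul hf g 1
  rw [mul_one, show (1 : Om τ K) = monomial 0 1 from rfl, wl_monomial] at this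
  simpa [mul_comm] using this

theorem wl_pow_mul (c : τ) (g : ℕ → Om τ K) (a : ℕ) {f : Om τ K} (hf : f ∈ Fr c) :
    wl c g (X (c, 0) ^ a * f) = g a * f := by
  induction a generalizing g with
  | zero => rw [pow_zero, one_mul, wl_fr hf]
  | succ a ih => rw [pow_succ', mul_assoc, wl_w_mul, ih]

theorem wl_pow (c : τ) (g : ℕ → Om τ K) (a : ℕ) : wl c g (X (c, 0) ^ a) = g a := by
  simpa using wl_pow_mul c g a (Fr c).one_mem

theorem wl_comb (c : τ) (g g' : ℕ → Om τ K) (h φ : Om τ K) :
    wl c (fun a => g a + h * g' a) φ = wl c g φ + h * wl c g' φ := by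
  induction φ using lin_ind with
  | ha f g hf hg => simp only [mul_add, map_add, hf, hg]; ring
  | hm m r => simp only [wl_monomial]; ring

theorem wl_zero (c : τ) (φ : Om τ K) : wl c (fun _ => 0) φ = 0 := by
  induction φ using lin_ind with
  | ha f g hf hg => simp only [map_add, hf, hg, add_zero]
  | hm m r => simp only [wl_monomial, zero_mul]

theorem monomial_split (c : τ) (m : τ × ℕ →₀ ℕ) (r : K) :
    (monomial m r : Om τ K) = X (c, 0) ^ m (c, 0) * monomial (m.erase (c, 0)) r := by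
  rw [X_pow_eq_monomial, monomial_mul, Finsupp.single_add_erase, one_mul]

theorem wl_id (c : τ) (φ : Om τ K) : wl c (fun a => X (c, 0) ^ a) φ = φ := by
  induction φ using lin_ind with
  | ha f g hf hg => simp only [map_add, hf, hg]
  | hm m r => rw [wl_monomial, ← monomial_split]

theorem wl_mem_Fr {c : τ} {g : ℕ → Om τ K} (hg : ∀ a, g a ∈ Fr c) (φ : Om τ K) :
    wl c g φ ∈ Fr c := by
  induction φ using lin_ind with
  | ha f g hf hg => rw [map_add]; exact add_mem hf hg
  | hm m r =>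
    rw [wl_monomial]
    exact mul_mem (hg _) (monomial_mem_Fr (by simp) r)

/-- The coefficient of `w ^ k`. -/
noncomputable def wc (c : τ) (k : ℕ) : Om τ K →ₗ[K] Om τ K := wl c fun a => if a = k then 1 else 0

/-- Division by `w`. -/
noncomputable def sh (c : τ) : Om τ K →ₗ[K] Om τ K :=
  wl c fun a => if a = 0 then 0 else X (c, 0) ^ (a - 1)

/-- The map `w ^ a ↦ p_(a+1)`. -/
noncomputable def Th (c : τ) : Om τ K →ₗ[K] Om τ K := wl c fun a => X (c, a + 1)

/-- The cut part of the Lax operator. -/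
noncomputable def Cu (c : τ) : Om τ K →ₗ[K] Om τ K :=
  wl c fun a => ∑ k ∈ range a, X (c, k + 1) * X (c, 0) ^ (a - 1 - k)

/-- The join and twist part of the Lax operator. -/
noncomputable def de (α : K) (c : τ) : Derivation K (Om τ K) (Om τ K) :=
  mkDerivation K fun v => if v.1 = c then
    (if v.2 = 0 then C (α - 1) * X (c, 0) else C (α * v.2) * X (c, 0) ^ v.2) else 0

/-- The Lax operator. -/
noncomputable def Lx (α : K) (c : τ) : Om τ K →ₗ[K] Om τ K := Cu c + (de α c).toLinearMap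

theorem Lx_apply (α : K) (c : τ) (φ : Om τ K) : Lx α c φ = Cu c φ + de α c φ := rfl

theorem wc_mem_Fr (c : τ) (k : ℕ) (φ : Om τ K) : wc c k φ ∈ Fr c :=
  wl_mem_Fr (fun a => by split_ifs; exacts [one_mem _, zero_mem _]) φ

theorem Th_mem_Fr (c : τ) (φ : Om τ K) : Th c φ ∈ Fr c := wl_mem_Fr (fun a => p_mem_Fr c c a) φ

theorem split (c : τ) (φ : Om τ K) : wc c 0 φ + X (c, 0) * sh c φ = φ := by
  rw [wc, sh, ← wl_comb]
  conv_rhs => rw [← wl_id c φ]
  congr 2
  funext a
  cases a with
  | zero => simp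
  | succ a => simp [pow_succ']

theorem wc_w (c : τ) (φ : Om τ K) : wc c 0 (X (c, 0) * φ) = 0 := by
  rw [wc, wl_w_mul]
  simpa using wl_zero c φ

theorem sh_w (c : τ) (φ : Om τ K) : sh c (X (c, 0) * φ) = φ := by
  rw [sh, wl_w_mul]
  simpa using wl_id c φ

theorem wc_fr {c : τ} {f : Om τ K} (hf : f ∈ Fr c) : wc c 0 f = f := by
  rw [wc, wl_fr hf]; simp

theorem sh_fr {c : τ} {f : Om τ K} (hf : f ∈ Fr c) : sh c f = 0 := by
  rw [sh, wl_fr hf]; simp

theorem Cu_fr {c : τ} {f : Om τ K} (hf : f ∈ Fr c) : Cu c f = 0 := by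
  rw [Cu, wl_fr hf]; simp

theorem Th_fr {c : τ} {f : Om τ K} (hf : f ∈ Fr c) : Th c f = X (c, 1) * f := by
  rw [Th, wl_fr hf]

theorem Cu_w (c : τ) (φ : Om τ K) : Cu c (X (c, 0) * φ) = Th c φ + X (c, 0) * Cu c φ := by
  rw [Cu, wl_w_mul, Th, ← wl_comb]
  congr 2
  funext a
  rw [sum_range_succ, add_comm, mul_sum]
  congr 1
  · simp
  · refine sum_congr rfl fun k hk => ?_
    have := mem_range.1 hk
    rw [show a + 1 - 1 - k = a - 1 - k + 1 by omega, pow_succ]
    ring

theorem de_w (α : K) (c : τ) : de α c (X (c, 0)) = C (α - 1) * X (c, 0) := by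
  simp [de, mkDerivation_X]

theorem de_p (α : K) (c : τ) (k : ℕ) :
    de α c (X (c, k + 1)) = C (α * (k + 1 : ℕ)) * X (c, 0) ^ (k + 1) := by
  simp [de, mkDerivation_X]

theorem de_ne (α : K) {c : τ} {v : τ × ℕ} (h : v.1 ≠ c) : de α c (X v) = 0 := by
  simp [de, mkDerivation_X, h]

theorem de_mul (α : K) (c : τ) (f g : Om τ K) :
    de α c (f * g) = f * de α c g + de α c f * g := by
  rw [Derivation.leibniz, smul_eq_mul, smul_eq_mul, mul_comm g]

theorem Lx_w (α : K) (c : τ) (φ : Om τ K) :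
    Lx α c (X (c, 0) * φ) = Th c φ + X (c, 0) * (Lx α c φ + C (α - 1) * φ) := by
  rw [Lx_apply, Lx_apply, Cu_w, de_mul, de_w]
  ring

theorem Lx_fr_mul (α : K) {c : τ} {f : Om τ K} (hf : f ∈ Fr c) (φ : Om τ K) :
    Lx α c (f * φ) = f * Lx α c φ + de α c f * φ := by
  rw [Lx_apply, Lx_apply, de_mul, Cu, wl_fr_mul hf]
  ring

theorem Lx_fr (α : K) {c : τ} {f : Om τ K} (hf : f ∈ Fr c) : Lx α c f = de α c f := by
  rw [Lx_apply, Cu_fr hf, zero_add]

theorem wc_de (α : K) {c : τ} (k : ℕ) {f : Om τ K} (hf : f ∈ Fr c) :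
    wc c k (de α c f) = C (α * k) * pderiv (c, k) f := by
  refine Fr_induction (P := fun f => wc c k (de α c f) = C (α * k) * pderiv (c, k) f)
    ?_ ?_ ?_ ?_ hf
  · intro r
    simp
  · rintro ⟨c', j⟩ hv
    by_cases h : c' = c
    · subst h
      cases j with
      | zero => exact absurd rfl hv
      | succ j =>
        rw [de_p, C_mul', map_smul, wc, wl_pow, pderiv_X, Pi.single_apply]
        by_cases e : j + 1 = k
        · subst e
          simp [smul_eq_C_mul]
        · simp [e]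
    · rw [de_ne α h, pderiv_X_of_ne (by simp [h])]
      simp
  · intro f g _ _ h h'
    simp only [map_add, h, h', mul_add]
  · intro f g hf hg h h'
    rw [de_mul, map_add, mul_comm _ g, wc, wl_fr_mul hf, wl_fr_mul hg, ← wc, h, h', pderiv_mul]
    ring

theorem de_fr (α : K) {c : τ} {f : Om τ K} (hf : f ∈ Fr c) :
    X (c, 0) * sh c (de α c f) = de α c f := by
  have := split c (de α c f)
  rwa [wc_de α 0 hf, Nat.cast_zero, mul_zero, C_0, zero_mul, zero_add] at this

theorem coeff_wc (c : τ) (k : ℕ) {m : τ × ℕ →₀ ℕ} (hm : m (c, 0) = 0) (φ : Om τ K) :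
    coeff m (wc c k φ) = coeff (Finsupp.single (c, 0) k + m) φ := by
  induction φ using lin_ind with
  | ha f g hf hg => simp only [map_add, coeff_add, hf, hg]
  | hm m' r =>
    rw [wc, wl_monomial, coeff_monomial]
    by_cases h : m' = Finsupp.single (c, 0) k + m
    · subst h
      simp [Finsupp.erase_add, hm, Finsupp.erase_of_notMem_support]
    · rw [if_neg h]
      split_ifs with h1
      · rw [one_mul, coeff_monomial, if_neg]
        rintro rfl
        exact h (by rw [← h1, Finsupp.single_add_erase])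
      · simp

/-- Induction on the degree in `w`. -/
theorem w_induction (c : τ) {P : Om τ K → Prop} (h0 : P 0)
    (hs : ∀ f x, f ∈ Fr c → P x → P (f + X (c, 0) * x)) (φ : Om τ K) : P φ := by
  have k : ∀ d : ℕ, ∀ φ : Om τ K, (∀ m, coeff m φ ≠ 0 → m (c, 0) < d) → P φ := fun d => by
    induction d with
    | zero =>
      intro φ h
      have : φ = 0 := MvPolynomial.ext _ _ fun m => by
        by_contra hc
        exact absurd (h m hc) (by omega)
      rwa [this]
    | succ d ih =>
      intro φ h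
      rw [← split c φ]
      refine hs _ _ (wc_mem_Fr c 0 φ) (ih _ fun m hm => ?_)
      have := h (Finsupp.single (c, 0) 1 + m) (by
        rw [← split c φ, coeff_add, Fr_iff.1 (wc_mem_Fr c 0 φ) _ (by simp), zero_add, coeff_X_mul]
        exact hm)
      simp at this
      omega
  refine k (φ.totalDegree + 1) φ fun m hm => ?_
  have := monomial_le_degreeOf (c, 0) (mem_support_iff.2 hm)
  have := degreeOf_le_totalDegree φ (c, 0)
  omega

/-- Placing a polynomial in the alphabet `c`. -/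
noncomputable def ren (c : τ) : Om Unit K →ₐ[K] Om τ K := rename fun v => (c, v.2)

theorem ren_X (c : τ) (k : ℕ) : ren c (X ((), k) : Om Unit K) = X (c, k) := rename_X _ _

theorem ren_C (c : τ) (r : K) : ren c (C r : Om Unit K) = C r := rename_C _ _

theorem ren_mem_Fr (c c' : τ) {f : Om Unit K} (hf : f ∈ Fr ()) : ren c' f ∈ Fr c := by
  refine Fr_induction (P := fun f => ren c' f ∈ Fr c) ?_ ?_ ?_ ?_ hf
  · intro r
    rw [ren_C]
    exact C_mem_Fr c r
  · rintro ⟨⟨⟩, j⟩ hv
    rw [ren_X]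
    exact X_mem_Fr (by simpa using fun _ => by simpa using hv)
  · intro f g _ _ h h'
    rw [map_add]
    exact add_mem h h'
  · intro f g _ _ h h'
    rw [map_mul]
    exact mul_mem h h'

theorem ren_mem_Fr_ne {c c' : τ} (h : c' ≠ c) (φ : Om Unit K) : ren c' φ ∈ Fr c := by
  induction φ using MvPolynomial.induction_on with
  | C r => rw [ren_C]; exact C_mem_Fr c r
  | add f g hf hg => rw [map_add]; exact add_mem hf hg
  | mul_X f v hf =>
    obtain ⟨⟨⟩, j⟩ := v
    rw [map_mul, ren_X]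
    exact mul_mem hf (X_mem_Fr (by simp [h]))

theorem de_ren_ne (α : K) {c c' : τ} (h : c' ≠ c) (φ : Om Unit K) : de α c (ren c' φ) = 0 := by
  induction φ using MvPolynomial.induction_on with
  | C r => rw [ren_C, derivation_C]
  | add f g hf hg => rw [map_add, map_add, hf, hg, add_zero]
  | mul_X f v hf =>
    obtain ⟨⟨⟩, j⟩ := v
    rw [map_mul, ren_X, de_mul, hf, de_ne α h, mul_zero, zero_mul, add_zero]

theorem de_ren (α : K) (c : τ) (φ : Om Unit K) : de α c (ren c φ) = ren c (de α () φ) := by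
  induction φ using MvPolynomial.induction_on with
  | C r => rw [ren_C, derivation_C, derivation_C, map_zero]
  | add f g hf hg => simp only [map_add, hf, hg]
  | mul_X f v hf =>
    obtain ⟨⟨⟩, j⟩ := v
    rw [map_mul, ren_X, de_mul, de_mul, hf, map_add, map_mul, map_mul, ren_X]
    cases j with
    | zero => rw [de_w, de_w, map_mul, ren_C, ren_X]
    | succ j => rw [de_p, de_p, map_mul (ren c), ren_C, map_pow, ren_X]

theorem wl_ren (c : τ) (φ : Om Unit K) :
    ∀ g : ℕ → Om Unit K, wl c (fun a => ren c (g a)) (ren c φ) = ren c (wl () g φ) := by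
  induction φ using w_induction () with
  | h0 => simp
  | hs f x hf ih =>
    intro g
    rw [map_add, map_mul, ren_X, map_add, map_add, wl_fr hf, wl_fr (ren_mem_Fr c c hf), wl_w_mul,
      wl_w_mul, map_add, map_mul, ← ih]

theorem wc_ren (c : τ) (k : ℕ) (φ : Om Unit K) : wc c k (ren c φ) = ren c (wc () k φ) := by
  rw [wc, wc, ← wl_ren]
  congr 2
  funext a
  split_ifs <;> simp

theorem Th_ren (c : τ) (φ : Om Unit K) : Th c (ren c φ) = ren c (Th () φ) := by
  rw [Th, Th, ← wl_ren]
  simp only [ren_X]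

theorem Lx_ren (α : K) (c : τ) (φ : Om Unit K) : Lx α c (ren c φ) = ren c (Lx α () φ) := by
  rw [Lx_apply, Lx_apply, map_add, de_ren, Cu, Cu, ← wl_ren]
  simp only [map_sum, map_mul, map_pow, ren_X]

end Pool.Agent.P.MP_dbf8df_co
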