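import Pool.Agent.P.MP_dbf8df_co.Basis

/-!
The eigenvectors of the Lax operator.
-/

namespace Pool.Agent.P.MP_dbf8df_co

open MvPolynomial Finset Submodule

set_option linter.unusedSectionVars false

variable {K : Type} [Field K] [CharZero K] {α : K} {n : ℕ}

/-- The properties of the parameter that are used. -/
structure Par (α : K) : Prop where
  aniso : ∀ φ, Bf α φ φ = 0 → φ = 0
  ne : α ≠ 0
  irr : ∀ a a' s s' : ℕ, α * a - s = α * a' - s' → a = a'

/-- A total order on partitions that refines the dominance order. -/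
def lo (l : n.Partition) : Lex (ℕ → ℕ) := toLex (Tm l.parts)

theorem lo_inj {l m : n.Partition} (h : lo l = lo m) : l = m := Tp_inj (toLex.injective h)

theorem span_map {I I' : Type} {N : I → Om Unit K} {N' : I' → Om Unit K} {A : Set I} {A' : Set I'}
    (T : Om Unit K →ₗ[K] Om Unit K) (h : ∀ i ∈ A, T (N i) ∈ span K (N' '' A')) {x : Om Unit K}
    (hx : x ∈ span K (N '' A)) : T x ∈ span K (N' '' A') := by
  refine mem_comap.1 ((span_le (p := comap T _)).2 ?_ hx)
  rintro _ ⟨i, hi, rfl⟩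
  exact h i hi

theorem span_orth {I : Type} {N : I → Om Unit K} {A : Set I} {f : Om Unit K}
    (h : ∀ i ∈ A, Bf α f (N i) = 0) {x : Om Unit K} (hx : x ∈ span K (N '' A)) : Bf α f x = 0 := by
  refine (span_le (p := LinearMap.ker (Bf α f))).2 ?_ hx
  rintro _ ⟨i, hi, rfl⟩
  exact h i hi

/-- An orthogonal spanning family of symmetric functions adapted to the total order. -/
structure OB (α : K) (G : ∀ n : ℕ, n.Partition → Om Unit K) : Prop where
  mem : ∀ n l, G n l ∈ Lam α n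
  orth : ∀ n l m, l ≠ m → Bf α (G n l) (G n m) = 0
  span : ∀ n, Lam α n ≤ span K (Set.range (G n))
  prop : ∀ n (l : n.Partition) f,
    f ∈ Submodule.span K ((fun k : n.Partition => gm α k.parts) '' {k | lo l ≤ lo k}) →
    (∀ k : n.Partition, lo l < lo k → Bf α f (gm α k.parts) = 0) → ∃ c : K, f = c • G n l

theorem lo_trans : IsTrans n.Partition fun l k => lo l < lo k := ⟨fun _ _ _ => lt_trans⟩

theorem lo_irrefl : Std.Irrefl fun l k : n.Partition => lo l < lo k := ⟨fun _ => lt_irrefl _⟩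

theorem OB_of_GS (hα : Par α) {G : ∀ n : ℕ, n.Partition → Om Unit K}
    (h : ∀ n, GS (Bf α) (fun l k => lo l < lo k) (fun k : n.Partition => gm α k.parts) (G n)) :
    OB α G := by
  have o : ∀ n l m, l ≠ m → Bf α (G n l) (G n m) = 0 := fun n l m hlm => by
    have := lo_trans (n := n)
    rcases lt_trichotomy (lo l) (lo m) with c | c | c
    · exact (h n).orth_of_rel c
    · exact absurd (lo_inj c) hlm
    · rw [Bf_symm]; exact (h n).orth_of_rel c
  refine ⟨fun n l => ?_, o, fun n => ?_, fun n l f h1 h2 => ?_⟩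
  · simpa [Lam] using (h n).mem (A := Set.univ) (i := l) trivial fun _ _ => trivial
  · have := lo_trans (n := n)
    have := lo_irrefl (n := n)
    simpa [Lam] using (h n).span_le (A := Set.univ) fun _ _ _ _ => trivial
  · have := lo_trans (n := n)
    have := lo_irrefl (n := n)
    have h3 := (h n).span_le (A := {k | lo l ≤ lo k}) (fun _ hi _ hj => le_trans hi hj.le) h1
    have e := expand hα.aniso (o n) (span_mono (Set.image_subset_range _ _) h3)
    rw [sum_eq_single l (fun k _ hk => ?_) (by simp)] at e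
    · exact ⟨_, e.symm⟩
    · rcases lt_trichotomy (lo l) (lo k) with c | c | c
      · rw [span_orth (A := {k | lo l < lo k}) h2 ((h n).mem c fun _ hj => lt_trans c hj), zero_div,
          zero_smul]
      · exact absurd (lo_inj c).symm hk
      · rw [Bf_symm, orth_span (o n) (A := {k | lo l ≤ lo k}) (not_le.2 c) h3, zero_div, zero_smul]

/-- The homogeneous part of degree `n`. -/
noncomputable def HH (α : K) (n : ℕ) : Submodule K (Om Unit K) :=
  span K (NN α '' (Set.univ : Set (In n)))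

theorem Lam_eq : Lam α n = span K ((fun k : n.Partition => gm α k.parts) '' Set.univ) := by
  rw [Set.image_univ, Lam]

theorem Lam_le_HH {x : Om Unit K} (hx : x ∈ Lam α n) : x ∈ HH α n := by
  rw [Lam_eq] at hx
  refine span_map LinearMap.id (fun l _ => ?_) hx
  obtain ⟨j, -, h⟩ := gm_eq_NN (K := K) l
  exact subset_span ⟨j, trivial, h α⟩

theorem wc_HH {x : Om Unit K} (hx : x ∈ HH α n) : wc () 0 x ∈ Lam α n := by
  rw [Lam_eq]
  exact span_map _ (fun i _ => subset_span ⟨zp i, Set.mem_univ _, (wc_NN i).symm⟩) hx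

theorem sh_HH {x : Om Unit K} (hx : x ∈ HH α (n + 1)) : sh () x ∈ HH α n :=
  span_map _ (fun i _ => span_mono (Set.image_mono (Set.subset_univ _)) (sh_NN i)) hx

theorem w_HH {x : Om Unit K} (hx : x ∈ HH α n) : X ((), 0) * x ∈ HH α (n + 1) :=
  span_map (LinearMap.mulLeft K (X ((), 0)))
    (fun i _ => span_mono (Set.image_mono (Set.subset_univ _)) (w_NN i)) hx

theorem sh_de_HH (h : α ≠ 0) {x : Om Unit K} (hx : x ∈ Lam α (n + 1)) :
    sh () (de α () x) ∈ HH α n := by
  rw [Lam_eq] at hx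
  exact span_map (sh () ∘ₗ (de α ()).toLinearMap)
    (fun l _ => span_mono (Set.image_mono (Set.subset_univ _)) (sh_de_gm h l)) hx

theorem HH_zero {x : Om Unit K} (hx : x ∈ HH α 0) : x ∈ Lam α 0 := by
  rw [Lam_eq]
  refine span_map LinearMap.id (fun i _ => subset_span ⟨zp i, Set.mem_univ _, ?_⟩) hx
  have := i.sum
  simp only [gm_zp, NN, show i.a = 0 by omega, GG, gg_zero, LinearMap.id_apply]

theorem lo_zp (i : In n) : lo (zp i) = toLex (fun t => i.a - t) + toLex (Tm i.nu) :=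
  congrArg toLex (funext (Tm_zp i))

theorem lo_xp (i : In n) : lo (xp i) = toLex (fun t => i.a + 1 - t) + toLex (Tm i.nu) :=
  congrArg toLex (funext (Tm_xp i))

theorem rr_mono {i j : In n} (h : rr id i j) : rr toLex i j :=
  ⟨Pi.toLex_monotone h.1, Pi.toLex_monotone h.2.1, h.2.2⟩

theorem rr_total {i j : In n} (h : i.a = j.a) (hij : i ≠ j) : rr toLex i j ∨ rr toLex j i := by
  have k : ∀ i j : In n, i.a = j.a → i ≠ j → toLex (Tm i.nu) ≤ toLex (Tm j.nu) → rr toLex i j :=
    fun i j h hij c => ⟨by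
      change lo _ ≤ lo _
      rw [lo_zp, lo_zp, h]
      exact add_le_add_right c _, by
      change lo _ ≤ lo _
      rw [lo_xp, lo_xp, h]
      exact add_le_add_right c _, hij⟩
  exact (le_total _ _).imp (k i j h hij) (k j i h.symm hij.symm)

section

variable {ψ : In n → Om Unit K}

theorem GS.psi_eigen (hα : Par α) :
    ∃ σ : In n → ℕ, ∀ o' : In n → In n → Prop, IsTrans _ o' → (∀ i j, rr id i j → o' i j) →
      ∀ ψ, GS (Bf α) o' (NN α) ψ → ∀ i, Lx α () (ψ i) = (α * i.a - σ i) • ψ i := by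
  choose σ hσ using Lx_NN (n := n) hα.ne
  exact ⟨σ, fun o' _ ho' ψ h => h.eigen hα.aniso (Lx_symm α)
    fun i => span_mono (Set.image_mono (ho' i)) (hσ i)⟩

theorem eigen_orth {s s' : K} {x y : Om Unit K} (hx : Lx α () x = s • x) (hy : Lx α () y = s' • y)
    (h : s ≠ s') : Bf α x y = 0 := by
  have := Lx_symm α x y
  rw [hx, hy, map_smul, map_smul, LinearMap.smul_apply, smul_eq_mul, smul_eq_mul, ← sub_eq_zero,
    ← sub_mul, mul_eq_zero, sub_eq_zero] at this
  exact this.resolve_left h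

/-- The basic properties of the eigenvectors. -/
structure EV (α : K) (ψ : In n → Om Unit K) : Prop where
  eig : ∀ i, ∃ s : K, Lx α () (ψ i) = s • ψ i
  orth : ∀ i j, i ≠ j → Bf α (ψ i) (ψ j) = 0
  span : HH α n ≤ span K (Set.range ψ)
  memZ : ∀ i, ψ i ∈ Submodule.span K (NN α '' {j : In n | lo (zp i) ≤ lo (zp j)})
  memX : ∀ i, ψ i ∈ Submodule.span K (NN α '' {j : In n | lo (xp i) ≤ lo (xp j)})
  orthZ : ∀ i, ∀ y ∈ Submodule.span K (NN α '' {j : In n | lo (zp i) < lo (zp j)}), Bf α (ψ i) y = 0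
  orthX : ∀ i, ∀ y ∈ Submodule.span K (NN α '' {j : In n | lo (xp i) < lo (xp j)}), Bf α (ψ i) y = 0

theorem EV_of_GS (hα : Par α) (h : GS (Bf α) (rr toLex) (NN α) ψ) : EV α ψ := by
  have := rr_trans (n := n) toLex.injective
  obtain ⟨σ, hσ⟩ := GS.psi_eigen (n := n) hα
  have e := hσ _ this (fun _ _ => rr_mono) ψ h
  have o : ∀ i j, i ≠ j → Bf α (ψ i) (ψ j) = 0 := fun i j hij => by
    by_cases c : i.a = j.a
    · rcases rr_total c hij with c | c
      · exact h.orth_of_rel c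
      · rw [Bf_symm]; exact h.orth_of_rel c
    · exact eigen_orth (e i) (e j) fun c' => c (hα.irr _ _ _ _ c')
  refine ⟨fun i => ⟨_, e i⟩, o, ?_, fun i => h.mem (A := {j : In n | lo (zp i) ≤ lo (zp j)}) (le_refl (lo (zp i)))
    fun _ hj => hj.1, fun i => h.mem (A := {j : In n | lo (xp i) ≤ lo (xp j)}) (le_refl (lo (xp i))) fun _ hj => hj.2.1,
    fun i y hy => orth_span o (A := {j : In n | lo (zp i) < lo (zp j)}) (lt_irrefl (lo (zp i)))
      (h.span_le (fun _ h1 _ h2 => lt_of_lt_of_le h1 h2.1) hy),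
    fun i y hy => orth_span o (A := {j : In n | lo (xp i) < lo (xp j)}) (lt_irrefl (lo (xp i)))
      (h.span_le (fun _ h1 _ h2 => lt_of_lt_of_le h1 h2.2.1) hy)⟩
  simpa [HH] using h.span_le (A := Set.univ) fun _ _ _ _ => trivial

theorem EV.mem (h : EV α ψ) (i : In n) : ψ i ∈ HH α n :=
  span_mono (Set.image_mono (Set.subset_univ _)) (h.memZ i)

variable {G : ∀ n : ℕ, n.Partition → Om Unit K}

theorem EV.wc (h : EV α ψ) (hG : OB α G) (i : In n) : ∃ c : K, wc () 0 (ψ i) = c • G n (zp i) := by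
  refine hG.prop n _ _ (span_map _ (fun j hj => subset_span ⟨zp j, hj, (wc_NN j).symm⟩) (h.memZ i))
    fun k hk => ?_
  obtain ⟨j, rfl, e⟩ := gm_eq_NN (K := K) k
  rw [Bf_wc α _ (gm_fr _), ← e]
  exact h.orthZ i _ (subset_span ⟨j, hk, rfl⟩)

theorem EV.Th (hα : Par α) (h : EV α ψ) (hG : OB α G) (i : In n) :
    ∃ c : K, Th () (ψ i) = c • G (n + 1) (xp i) := by
  refine hG.prop (n + 1) _ _ (span_map _ (fun j hj => ?_) (h.memX i)) fun k hk => ?_
  · rw [Th_NN hα.ne]
    exact smul_mem _ _ (subset_span ⟨xp j, hj, rfl⟩)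
  · rw [Bf_Th' α _ (gm_fr _)]
    refine h.orthX i _ (span_mono (Set.image_mono ?_) (sh_de_gm hα.ne k))
    rintro j rfl
    exact hk

theorem EV.cross {χ : In (n + 1) → Om Unit K} (h : EV α ψ) (h' : EV α χ) (i : In (n + 1)) (j : In n)
    (hne : zp i ≠ xp j) : Bf α (χ i) (X ((), 0) * ψ j) = 0 := by
  rcases lt_trichotomy (lo (zp i)) (lo (xp j)) with c | c | c
  · refine h'.orthZ i _ (span_map (LinearMap.mulLeft K (X ((), 0))) (fun k hk => ?_) (h.memX j))
    refine span_mono (Set.image_mono fun k' (e : zp k' = xp k) => ?_) (w_NN k)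
    change lo _ < lo _
    rw [e]
    exact lt_of_lt_of_le c hk
  · exact absurd (lo_inj c) hne
  · rw [← Bf_sh, Bf_symm]
    refine h.orthX j _ (span_map (sh ()) (fun k hk => ?_) (h'.memZ i))
    refine span_mono (Set.image_mono fun k' (e : xp k' = zp k) => ?_) (sh_NN k)
    change lo _ < lo _
    rw [e]
    exact lt_of_lt_of_le c hk

theorem EV.smul (h : EV α ψ) {c : In n → K} (hc : ∀ i, c i ≠ 0) : EV α fun i => c i • ψ i := by
  refine ⟨fun i => ?_, fun i j hij => by simp [h.orth i j hij], h.span.trans (span_le.2 ?_),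
    fun i => smul_mem _ _ (h.memZ i), fun i => smul_mem _ _ (h.memX i),
    fun i y hy => by simp [h.orthZ i y hy], fun i y hy => by simp [h.orthX i y hy]⟩
  · obtain ⟨s, hs⟩ := h.eig i
    exact ⟨s, by rw [map_smul, hs, smul_comm]⟩
  · rintro _ ⟨i, rfl⟩
    rw [← inv_smul_smul₀ (hc i) (ψ i)]
    exact smul_mem _ _ (subset_span ⟨i, rfl⟩)

end

theorem gg_pow_fr (n : ℕ) : gg α 1 ^ n ∈ Fr () := pow_mem (gg_fr 1) n

theorem Bf_Th_pow (h : α ≠ 0) (x : Om Unit K) (n : ℕ) :
    Bf α (Th () x) (gg α 1 ^ (n + 1)) = (n + 1) * Bf α (wc () 0 x) (gg α 1 ^ n) := by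
  rw [Bf_Th α x (gg_pow_fr _), Derivation.leibniz_pow, de_gg h 0, GG, mul_one, smul_eq_mul,
    Nat.add_sub_cancel, mul_comm (_ ^ n), map_nsmul, Bf_w_w, Bf_wc α _ (gg_pow_fr _), nsmul_eq_mul]
  push_cast
  rfl

/-- Jack symmetric functions as elements of the polynomial ring. -/
structure JH (α : K) (J : ∀ n : ℕ, n.Partition → Om Unit K) : Prop where
  mem : ∀ n l, J n l ∈ Lam α n
  orth : ∀ n l m, l ≠ m → Bf α (J n l) (J n m) = 0
  tri : ∀ n (l k : n.Partition), lo l < lo k → Bf α (J n l) (gm α k.parts) = 0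
  norm : ∀ n l, Bf α (J n l) (gg α 1 ^ n) = n.factorial

variable {J : ∀ n : ℕ, n.Partition → Om Unit K}

theorem JH.ne (hJ : JH α J) (l : n.Partition) : J n l ≠ 0 := fun h => by
  have := hJ.norm n l
  rw [h, map_zero, LinearMap.zero_apply] at this
  exact Nat.cast_ne_zero.2 n.factorial_ne_zero this.symm

theorem JH.ob (hα : Par α) (hJ : JH α J) : OB α J := by
  choose G hG using fun n : ℕ => exists_GS (B := Bf α) hα.aniso (fun l k : n.Partition => lo l < lo k)
    fun k : n.Partition => gm α k.parts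
  have ob := OB_of_GS hα hG
  have k : ∀ n (l : n.Partition), ∃ c : K, G n l = c • J n l := fun n l => by
    have := lo_trans (n := n)
    have := lo_irrefl (n := n)
    induction l using (Finite.wellFounded_of_trans_of_irrefl
      fun l k : n.Partition => lo l < lo k).induction with
    | _ l ih =>
      have e := expand hα.aniso (ob.orth n) (ob.span n (hJ.mem n l))
      rw [sum_eq_single l (fun k _ hk => ?_) (by simp)] at e
      · refine ⟨(Bf α (J n l) (G n l) / Bf α (G n l) (G n l))⁻¹, ?_⟩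
        rw [eq_inv_smul_iff₀ fun c => hJ.ne l (by rw [← e, c, zero_smul]), e]
      · rcases lt_trichotomy (lo l) (lo k) with c | c | c
        · rw [span_orth (A := {k | lo l < lo k}) (hJ.tri n l)
            ((hG n).mem c fun _ hj => lt_trans c hj), zero_div, zero_smul]
        · exact absurd (lo_inj c).symm hk
        · obtain ⟨c, hc⟩ := ih k c
          rw [hc, map_smul, hJ.orth n l k hk.symm, smul_zero, zero_div, zero_smul]
  refine ⟨hJ.mem, hJ.orth, fun n => (ob.span n).trans (span_le.2 ?_), fun n l f h1 h2 => ?_⟩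
  · rintro _ ⟨l, rfl⟩
    obtain ⟨c, hc⟩ := k n l
    rw [hc]
    exact smul_mem _ _ (subset_span ⟨l, rfl⟩)
  · obtain ⟨c, hc⟩ := k n l
    obtain ⟨d, hd⟩ := ob.prop n l f h1 h2
    exact ⟨d * c, by rw [hd, hc, mul_smul]⟩

theorem exists_psi (hα : Par α) (hJ : JH α J) (n : ℕ) : ∃ ψ : In n → Om Unit K, EV α ψ ∧
    ∀ i, ψ i = 0 ∨ (wc () 0 (ψ i) = J n (zp i) ∧ Th () (ψ i) = J (n + 1) (xp i)) := by
  classical
  obtain ⟨ψ, hψ⟩ := exists_GS (B := Bf α) hα.aniso (rr toLex) (NN (n := n) α)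
  have ev := EV_of_GS hα hψ
  choose c hc using ev.wc (hJ.ob hα)
  refine ⟨_, ev.smul (c := fun i => if c i = 0 then 1 else (c i)⁻¹) fun i => ?_, fun i => ?_⟩
  · split_ifs with h
    exacts [one_ne_zero, inv_ne_zero h]
  · by_cases h : c i = 0
    · obtain ⟨s, hs⟩ := ev.eig i
      left
      rw [eigen_zero hs (by rw [hc, h, zero_smul]), smul_zero]
    · obtain ⟨d, hd⟩ := ev.Th hα (hJ.ob hα) i
      have e := Bf_Th_pow hα.ne (ψ i) n
      rw [hc, hd, map_smul, map_smul, LinearMap.smul_apply, LinearMap.smul_apply, hJ.norm, hJ.norm,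
        smul_eq_mul, smul_eq_mul, Nat.factorial_succ, Nat.cast_mul, Nat.cast_succ, mul_left_comm,
        mul_right_inj' (Nat.cast_add_one_ne_zero n),
        mul_left_inj' (Nat.cast_ne_zero.2 n.factorial_ne_zero)] at e
      right
      simp only [if_neg h, map_smul, hc, hd, e, inv_smul_smul₀ h, and_self]

theorem two_bases {I I' L M : Type} [Fintype I] [Fintype I'] [AddCommGroup M] [Module K M]
    {ψ : I → Om Unit K} {χ : I' → Om Unit K} {z : I → L} {y : I' → L}
    (h1 : ∀ i, ∑ j, (Bf α (ψ i) (χ j) / Bf α (χ j) (χ j)) • χ j = ψ i)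
    (h2 : ∀ j, ∑ i, (Bf α (χ j) (ψ i) / Bf α (ψ i) (ψ i)) • ψ i = χ j)
    (h3 : ∀ i j, z i ≠ y j → Bf α (ψ i) (χ j) = 0) (F : L → Om Unit K →ₗ[K] Om Unit K →ₗ[K] M) :
    ∑ i, (Bf α (ψ i) (ψ i))⁻¹ • F (z i) (ψ i) (ψ i)
      = ∑ j, (Bf α (χ j) (χ j))⁻¹ • F (y j) (χ j) (χ j) := by
  have a1 : ∀ i, F (z i) (ψ i) (ψ i)
      = ∑ j, (Bf α (ψ i) (χ j) / Bf α (χ j) (χ j)) • F (y j) (χ j) (ψ i) := fun i => by
    conv_lhs => enter [1, 2]; rw [← h1 i]
    rw [map_sum, LinearMap.sum_apply]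
    refine sum_congr rfl fun j _ => ?_
    rw [map_smul, LinearMap.smul_apply]
    by_cases c : z i = y j
    · rw [c]
    · simp [h3 i j c]
  have a2 : ∀ j, F (y j) (χ j) (χ j)
      = ∑ i, (Bf α (χ j) (ψ i) / Bf α (ψ i) (ψ i)) • F (y j) (χ j) (ψ i) := fun j => by
    conv_lhs => enter [2]; rw [← h2 j]
    simp only [map_sum, map_smul]
  simp only [a1, a2, smul_sum, smul_smul]
  rw [sum_comm]
  refine sum_congr rfl fun j _ => sum_congr rfl fun i _ => ?_
  rw [Bf_symm α (χ j) (ψ i)]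
  congr 1
  ring

end Pool.Agent.P.MP_dbf8df_co
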