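import Pool.Agent.P.MP_dbf8df_co.Psi

/-!
The rooted series in three alphabets and its equations.
-/

namespace Pool.Agent.P.MP_dbf8df_co

open MvPolynomial Finset Submodule

set_option linter.unusedSectionVars false

variable {K : Type} [Field K] [CharZero K] {α : K} {n : ℕ}

/-- The product of the copies of `x` in the three alphabets. -/
noncomputable def cube (x : Om Unit K) : Om (Fin 3) K := ∏ W, ren W x

theorem cube_eq (c : Fin 3) (x : Om Unit K) :
    cube x = ren c x * (ren (c + 1) x * ren (c + 2) x) := by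
  rw [cube, Fin.prod_univ_three]
  fin_cases c
  · exact mul_assoc _ _ _
  · change _ = ren 1 x * (ren 2 x * ren 0 x)
    ring
  · change _ = ren 2 x * (ren 0 x * ren 1 x)
    ring

theorem ne1 (c : Fin 3) : c + 1 ≠ c := by revert c; decide
theorem ne2 (c : Fin 3) : c + 2 ≠ c := by revert c; decide
theorem ne3 (c : Fin 3) : c + 2 ≠ c + 1 := by revert c; decide

theorem rest_fr (c : Fin 3) (y z : Om Unit K) : ren (c + 1) y * ren (c + 2) z ∈ Fr c :=
  mul_mem (ren_mem_Fr_ne (ne1 c) y) (ren_mem_Fr_ne (ne2 c) z)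

theorem de_rest (c : Fin 3) (y z : Om Unit K) : de α c (ren (c + 1) y * ren (c + 2) z) = 0 := by
  rw [de_mul, de_ren_ne α (ne1 c), de_ren_ne α (ne2 c), mul_zero, zero_mul, add_zero]

theorem wc_cube (c : Fin 3) (x : Om Unit K) :
    wc c 0 (cube x) = ren c (wc () 0 x) * (ren (c + 1) x * ren (c + 2) x) := by
  rw [cube_eq c, mul_comm, wc, wl_fr_mul (rest_fr c x x), ← wc, wc_ren, mul_comm]

theorem Th_cube (c : Fin 3) (x : Om Unit K) :
    Th c (cube x) = ren c (Th () x) * (ren (c + 1) x * ren (c + 2) x) := by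
  rw [cube_eq c, mul_comm, Th, wl_fr_mul (rest_fr c x x), ← Th, Th_ren, mul_comm]

theorem de_cube (c : Fin 3) (x : Om Unit K) :
    de α c (cube x) = ren c (de α () x) * (ren (c + 1) x * ren (c + 2) x) := by
  rw [cube_eq c, de_mul, de_rest, mul_zero, zero_add, de_ren]

theorem Lx_cube (c : Fin 3) {x : Om Unit K} {s : K} (h : Lx α () x = s • x) :
    Lx α c (cube x) = s • cube x := by
  rw [cube_eq c, mul_comm, Lx_fr_mul α (rest_fr c x x), de_rest, zero_mul, add_zero, Lx_ren, h,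
    map_smul, mul_smul_comm]

theorem Th_Th_cube (c : Fin 3) (x : Om Unit K) : Th (c + 1) (Th (c + 2) (cube x))
    = ren c x * (ren (c + 1) (Th () x) * ren (c + 2) (Th () x)) := by
  rw [cube_eq c, ← mul_assoc, Th, Th, wl_fr_mul (mul_mem (ren_mem_Fr_ne (ne2 c).symm x)
    (ren_mem_Fr_ne (ne3 c).symm x)), ← Th, ← Th, Th_ren, mul_right_comm, Th,
    wl_fr_mul (mul_mem (ren_mem_Fr_ne (ne1 c).symm x) (ren_mem_Fr_ne (ne3 c) _)), ← Th, Th_ren]
  ring

/-- The bilinear map used to compare two orthogonal bases. -/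
noncomputable def bil (c : Fin 3) (x : Om Unit K) :
    Om Unit K →ₗ[K] Om Unit K →ₗ[K] Om (Fin 3) K :=
  ((LinearMap.mul K (Om (Fin 3) K)).compl₁₂ (ren (c + 1)).toLinearMap
    (ren (c + 2)).toLinearMap).compr₂ (LinearMap.mulLeft K (ren c x))

theorem bil_apply (c : Fin 3) (x y z : Om Unit K) :
    bil c x y z = ren c x * (ren (c + 1) y * ren (c + 2) z) := rfl

/-- The sum of the normalised cubes of a finite family. -/
noncomputable def cs (α : K) {I : Type} [Fintype I] (ψ : I → Om Unit K) : Om (Fin 3) K :=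
  ∑ i, (Bf α (ψ i) (ψ i))⁻¹ • cube (ψ i)

variable {J : ∀ n : ℕ, n.Partition → Om Unit K}

theorem cs_fr (hJ : JH α J) (c : Fin 3) (n : ℕ) : cs α (J n) ∈ Fr c :=
  sum_mem fun l _ => Subalgebra.smul_mem _
    (prod_mem fun W _ => ren_mem_Fr c W (Lam_fr (hJ.mem n l))) _

theorem cs_zero (hJ : JH α J) : cs α (J 0) = 1 := by
  have : J 0 default = 1 := by
    have h1 := hJ.mem 0 default
    have h2 := hJ.norm 0 default
    rw [Lam, Set.range_unique, mem_span_singleton] at h1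
    obtain ⟨c, hc⟩ := h1
    simp only [Nat.Partition.partition_zero_parts, gm, Multiset.map_zero, Multiset.prod_zero] at hc
    rw [← hc, pow_zero, map_smul, LinearMap.smul_apply, show (1 : Om Unit K) = monomial 0 1 from rfl,
      Bf_monomial, zw_zero] at h2
    rw [← hc, show c = 1 by simpa using h2, one_smul]
  rw [cs, Fintype.sum_unique, this, show (1 : Om Unit K) = monomial 0 1 from rfl, Bf_monomial,
    zw_zero]
  simp [cube]

/-- Normalised eigenvectors. -/
structure PS (α : K) (J : ∀ n : ℕ, n.Partition → Om Unit K) (ψ : ∀ n : ℕ, In n → Om Unit K) :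
    Prop where
  ev : ∀ n, EV α (ψ n)
  nm : ∀ n i, ψ n i = 0 ∨ (wc () 0 (ψ n i) = J n (zp i) ∧ Th () (ψ n i) = J (n + 1) (xp i))

variable {ψ : ∀ n : ℕ, In n → Om Unit K}

theorem PS.Lx_eq (h : PS α J ψ) (c c' : Fin 3) (n : ℕ) :
    Lx α c (cs α (ψ n)) = Lx α c' (cs α (ψ n)) := by
  simp only [cs, map_sum, map_smul]
  refine sum_congr rfl fun i _ => ?_
  obtain ⟨s, hs⟩ := (h.ev n).eig i
  rw [Lx_cube c hs, Lx_cube c' hs]

theorem PS.wc_cs (h : PS α J ψ) (c : Fin 3) (n : ℕ) : wc c 0 (cs α (ψ n))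
    = ∑ i, (Bf α (ψ n i) (ψ n i))⁻¹ • bil c (J n (zp i)) (ψ n i) (ψ n i) := by
  simp only [cs, map_sum, map_smul]
  refine sum_congr rfl fun i _ => ?_
  rcases h.nm n i with e | e
  · simp [e]
  · rw [wc_cube, e.1, bil_apply]

theorem PS.orthJ (h : PS α J ψ) (hJ : JH α J) (i : In n) (l : n.Partition) (hl : zp i ≠ l) :
    Bf α (ψ n i) (J n l) = 0 := by
  rcases h.nm n i with e | e
  · simp [e]
  · rw [← Bf_wc α _ (Lam_fr (hJ.mem n l)), e.1, hJ.orth n _ _ hl]

theorem PS.exp (hα : Par α) (h : PS α J ψ) {x : Om Unit K} (hx : x ∈ HH α n) :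
    ∑ i, (Bf α x (ψ n i) / Bf α (ψ n i) (ψ n i)) • ψ n i = x :=
  expand hα.aniso (h.ev n).orth ((h.ev n).span hx)

theorem JH.exp (hα : Par α) (hJ : JH α J) {x : Om Unit K} (hx : x ∈ Lam α n) :
    ∑ l, (Bf α x (J n l) / Bf α (J n l) (J n l)) • J n l = x :=
  expand hα.aniso (hJ.orth n) ((hJ.ob hα).span n hx)

theorem PS.wc_zero (hα : Par α) (h : PS α J ψ) (hJ : JH α J) (c : Fin 3) :
    wc c 0 (cs α (ψ 0)) = cs α (J 0) := by
  rw [h.wc_cs, two_bases (χ := J 0) (y := id) (fun i => hJ.exp hα (HH_zero ((h.ev 0).mem i)))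
    (fun l => h.exp hα (Lam_le_HH (hJ.mem 0 l))) (h.orthJ hJ) fun l => bil c (J 0 l)]
  simp only [cs, id, bil_apply, cube_eq c]

theorem PS.wc_succ (hα : Par α) (h : PS α J ψ) (hJ : JH α J) (c : Fin 3) (n : ℕ) :
    wc c 0 (cs α (ψ (n + 1)))
      = cs α (J (n + 1)) + X (c + 1, 0) * X (c + 2, 0) * Th c (cs α (ψ n)) := by
  rw [h.wc_cs, two_bases (χ := Sum.elim (J (n + 1)) fun i => X ((), 0) * ψ n i)
    (y := Sum.elim id xp) (fun i => ?_) ?_ ?_ fun l => bil c (J (n + 1) l), Fintype.sum_sum_type]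
  · simp only [cs, id, bil_apply, cube_eq c, Sum.elim_inl, Sum.elim_inr, map_sum, map_smul, mul_sum,
      Bf_w_w]
    congr 1
    refine sum_congr rfl fun i _ => ?_
    rcases h.nm n i with e | e
    · simp [e]
    · rw [← cube_eq c, Th_cube, e.2, map_mul, map_mul, ren_X, ren_X, mul_smul_comm]
      congr 1
      ring
  · rintro (l | i)
    · exact h.exp hα (Lam_le_HH (hJ.mem _ l))
    · exact h.exp hα (w_HH ((h.ev n).mem i))
  · rintro i (l | j)
    · exact h.orthJ hJ i l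
    · exact (h.ev n).cross (h.ev (n + 1)) i j
  · have m := (h.ev (n + 1)).mem i
    have e1 := hJ.exp hα (wc_HH m)
    have e2 := h.exp hα (sh_HH m)
    simp only [Bf_wc α _ (Lam_fr (hJ.mem _ _))] at e1
    simp only [Bf_sh] at e2
    simp only [Fintype.sum_sum_type, Sum.elim_inl, Sum.elim_inr, Bf_w_w, ← mul_smul_comm, ← mul_sum,
      e1, e2, split]

theorem PS.de_succ (hα : Par α) (h : PS α J ψ) (hJ : JH α J) (c : Fin 3) (n : ℕ) :
    de α c (cs α (J (n + 1))) = X (c, 0) * Th (c + 1) (Th (c + 2) (cs α (ψ n))) := by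
  classical
  have a : ∀ l, (Bf α (J (n + 1) l) (J (n + 1) l))⁻¹ • de α c (cube (J (n + 1) l))
      = ∑ i, if xp i = l then X (c, 0) * (Bf α (ψ n i) (ψ n i))⁻¹ •
        Th (c + 1) (Th (c + 2) (cube (ψ n i))) else 0 := fun l => by
    have f := Lam_fr (hJ.mem _ l)
    rw [de_cube, ← de_fr α f, ← h.exp hα (sh_de_HH hα.ne (hJ.mem _ l)), map_mul, ren_X, map_sum,
      mul_sum, sum_mul, smul_sum]
    refine sum_congr rfl fun i _ => ?_
    rw [Bf_symm α _ (ψ n i), ← Bf_Th' α _ f]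
    rcases h.nm n i with e | e
    · simp [e]
    · rw [Th_Th_cube, e.2]
      split_ifs with e'
      · subst e'
        rw [map_smul, mul_smul_comm, mul_smul_comm, smul_mul_assoc, smul_smul, div_eq_mul_inv,
          inv_mul_cancel_left₀ fun z => hJ.ne _ (hα.aniso _ z), mul_assoc]
      · simp [hJ.orth _ _ _ e']
  simp only [cs, map_sum, Derivation.map_smul, map_smul, a, mul_sum]
  rw [sum_comm]
  simp

end Pool.Agent.P.MP_dbf8df_co
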